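import Pool.Agent.H809R2.GI.Lower3

set_option autoImplicit false

namespace Pool.Agent.H809R2.GI

open MeasureTheory ProbabilityTheory Module
open scoped RealInnerProductSpace

section

variable {F : Type*} [NormedAddCommGroup F] [InnerProductSpace ℝ F] [FiniteDimensional ℝ F]
  [MeasurableSpace F] [BorelSpace F]

lemma law_inner_real (v : F) (hv : ‖v‖ = 1) :
    (stdGaussian F).map (fun x => (⟪v, x⟫ : ℝ)) = gaussianReal 0 1 := by
  have h := IsGaussian.map_eq_gaussianReal (μ := stdGaussian F) (innerSL ℝ v)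
  rw [integral_strongDual_stdGaussian, variance_dual_stdGaussian, innerSL_apply_norm, hv] at h
  simpa using h

lemma integral_abs_gaussianReal : ∫ x : ℝ, |x| ∂(gaussianReal 0 1) = Real.sqrt (2 / Real.pi) := by
  rw [integral_gaussianReal_eq_integral_smul (by norm_num)]
  have h1 : ∀ x : ℝ, gaussianPDFReal 0 1 x • |x| =
      (Real.sqrt (2 * Real.pi))⁻¹ * (|x| * Real.exp (-(1 / 2) * |x| ^ 2)) := by
    intro x
    simp only [gaussianPDFReal, smul_eq_mul, NNReal.coe_one, mul_one, sub_zero, sq_abs]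
    rw [show -x ^ 2 / 2 = -(1 / 2) * x ^ 2 by ring]
    ring
  simp only [h1]
  rw [integral_const_mul, integral_comp_abs (f := fun x : ℝ => x * Real.exp (-(1 / 2) * x ^ 2))]
  have h := _root_.integral_rpow_mul_exp_neg_mul_rpow (p := 2) (q := 1) (b := 1 / 2)
      (by norm_num) (by norm_num) (by norm_num)
  have e3 : ∀ r ∈ Set.Ioi (0 : ℝ), r * Real.exp (-(1 / 2) * r ^ 2) =
      (r ^ (1 : ℝ) * Real.exp (-(1 / 2) * r ^ (2 : ℝ))) := by
    intro r _
    rw [Real.rpow_one, Real.rpow_two]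
  rw [setIntegral_congr_fun measurableSet_Ioi e3, h]
  norm_num
  have hpi := Real.pi_pos
  have hs : Real.sqrt Real.pi ≠ 0 := (Real.sqrt_pos.mpr hpi).ne'
  have h2 : Real.sqrt 2 * Real.sqrt 2 = 2 := Real.mul_self_sqrt (by norm_num)
  have h3 : Real.sqrt 2 ≠ 0 := by positivity
  field_simp
  rw [pow_two, h2]

lemma integral_abs_inner_real (v : F) (hv : ‖v‖ = 1) :
    ∫ x, ‖(⟪v, x⟫ : ℝ)‖ ∂(stdGaussian F) = Real.sqrt (2 / Real.pi) := by
  rw [← integral_abs_gaussianReal, ← law_inner_real v hv, integral_map (by fun_prop) (by fun_prop)]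
  simp only [Real.norm_eq_abs]

end

section complex

variable {ι : Type*} [Fintype ι]

lemma real_inner_eq_re (x y : EuclideanSpace ℂ ι) : (⟪x, y⟫ : ℝ) = (inner ℂ x y).re := by
  rw [PiLp.inner_apply, PiLp.inner_apply, Complex.re_sum]
  rfl

lemma law_inner_complex (v : EuclideanSpace ℂ ι) (hv : ‖v‖ = 1) :
    (stdGaussian (EuclideanSpace ℂ ι)).map (fun x => inner ℂ v x) = stdGaussian ℂ := by
  have : IsFiniteMeasure ((stdGaussian (EuclideanSpace ℂ ι)).map (fun x => inner ℂ v x)) := by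
    apply Measure.isFiniteMeasure_map
  apply Measure.ext_of_charFun
  ext t
  rw [charFun_stdGaussian, charFun_apply, integral_map (by fun_prop) (by fun_prop)]
  have h := integral_exp_inner (t • v)
  rw [norm_smul, hv, mul_one] at h
  rw [← h]
  congr 1
  ext g
  congr 3
  have hre : (inner ℂ g v).re = (inner ℂ v g).re := inner_re_symm (𝕜 := ℂ) g v
  have him : (inner ℂ g v).im = -(inner ℂ v g).im := inner_im_symm (𝕜 := ℂ) g v
  rw [real_inner_eq_re, inner_smul_left, Complex.inner]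
  simp
  rw [hre, him]
  ring

lemma integral_norm_inner_complex (v : EuclideanSpace ℂ ι) (hv : ‖v‖ = 1) (p : ℝ) (hp : -2 < p) :
    ∫ x, ‖inner ℂ v x‖ ^ p ∂(stdGaussian (EuclideanSpace ℂ ι)) =
      2 ^ (p / 2) * Real.Gamma (1 + p / 2) := by
  rw [← integral_norm_rpow_stdGaussian_complex p hp, ← law_inner_complex v hv,
    integral_map (by fun_prop) (measurable_norm.pow_const p).aestronglyMeasurable]

end complex

open Filter in
theorem real_lower (K : ℝ) (hK : 0 ≤ K) (hK2 : K < Real.pi - 1) :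
    ∃ (k : ℕ) (S B : Matrix (Fin k) (Fin k) ℝ), IsCorrelation S ∧
      K * rankOneMax B < ‖(B.conjTranspose * S).trace‖ := by
  have hpi := Real.pi_pos
  have hlim : Tendsto (fun d : ℕ => (1 - VV / (2 * (d : ℝ))) ^ 2) atTop (nhds ((1 - 0) ^ 2)) := by
    apply Tendsto.pow
    apply Tendsto.sub tendsto_const_nhds
    apply Tendsto.const_div_atTop
    exact Tendsto.const_mul_atTop (by norm_num) tendsto_natCast_atTop_atTop
  have hev : ∀ᶠ d : ℕ in atTop, K * (1 / Real.pi) + 1 / Real.pi < (1 - VV / (2 * (d : ℝ))) ^ 2 := by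
    apply hlim.eventually_const_lt
    rw [← add_one_mul, mul_one_div, div_lt_iff₀ hpi]
    linarith
  have hev2 : ∀ᶠ d : ℕ in atTop, VV < 2 * (d : ℝ) :=
    (Tendsto.const_mul_atTop (by norm_num : (0 : ℝ) < 2)
      tendsto_natCast_atTop_atTop).eventually_gt_atTop VV
  obtain ⟨d, ⟨hd1, hd2⟩, hd3⟩ := ((hev.and hev2).and (eventually_gt_atTop 0)).exists
  have hd' : (0 : ℝ) < d := by exact_mod_cast hd3
  have hm : Real.sqrt (2 / Real.pi) ^ 2 / 2 = 1 / Real.pi := by
    rw [Real.sq_sqrt (by positivity)]; field_simp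
  refine bad_of_rv (stdGaussian (EuclideanSpace ℝ (Fin d))) hd3 (fun x => x)
    IsGaussian.integrable_id K (Real.sqrt (2 / Real.pi)) hK (by positivity)
    (fun v hv => (integral_abs_inner_real v hv).le) ?_
  rw [hm]
  have h1 := integral_norm_ge (F := EuclideanSpace ℝ (Fin d)) (by simpa using hd3)
  simp only [finrank_euclideanSpace, Fintype.card_fin] at h1
  have h2 : 0 ≤ 1 - VV / (2 * (d : ℝ)) := by
    rw [sub_nonneg, div_le_one (by positivity)]
    exact hd2.le
  have h3 : (1 - VV / (2 * (d : ℝ))) ^ 2 ≤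
      (∫ x : EuclideanSpace ℝ (Fin d), ‖x‖ ∂(stdGaussian (EuclideanSpace ℝ (Fin d)))) ^ 2 / d := by
    rw [le_div_iff₀ hd']
    calc (1 - VV / (2 * (d : ℝ))) ^ 2 * d = (Real.sqrt d * (1 - VV / (2 * (d : ℝ)))) ^ 2 := by
          rw [mul_pow, Real.sq_sqrt hd'.le]; ring
      _ ≤ _ := by
          apply pow_le_pow_left₀ (by positivity) h1
  linarith

open Filter in
theorem complex_lower (K : ℝ) (hK : 0 ≤ K) (hK2 : K < 8 / Real.pi - 1) :
    ∃ (k : ℕ) (S B : Matrix (Fin k) (Fin k) ℂ), IsCorrelation S ∧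
      K * rankOneMax B < ‖(B.conjTranspose * S).trace‖ := by
  have hpi := Real.pi_pos
  have hlim : Tendsto (fun d : ℕ => 2 * (1 - VV / (4 * (d : ℝ))) ^ 2) atTop
      (nhds (2 * (1 - 0) ^ 2)) := by
    apply Tendsto.const_mul
    apply Tendsto.pow
    apply Tendsto.sub tendsto_const_nhds
    apply Tendsto.const_div_atTop
    exact Tendsto.const_mul_atTop (by norm_num) tendsto_natCast_atTop_atTop
  have hev : ∀ᶠ d : ℕ in atTop, K * (Real.pi / 4) + Real.pi / 4 <
      2 * (1 - VV / (4 * (d : ℝ))) ^ 2 := by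
    apply hlim.eventually_const_lt
    have : (K + 1) * Real.pi < 8 := by
      rw [← lt_div_iff₀ hpi]; linarith
    nlinarith
  have hev2 : ∀ᶠ d : ℕ in atTop, VV < 4 * (d : ℝ) :=
    (Tendsto.const_mul_atTop (by norm_num : (0 : ℝ) < 4)
      tendsto_natCast_atTop_atTop).eventually_gt_atTop VV
  obtain ⟨d, ⟨hd1, hd2⟩, hd3⟩ := ((hev.and hev2).and (eventually_gt_atTop 0)).exists
  have hd' : (0 : ℝ) < d := by exact_mod_cast hd3
  have hm : Real.sqrt (Real.pi / 2) ^ 2 / 2 = Real.pi / 4 := by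
    rw [Real.sq_sqrt (by positivity)]; ring
  refine bad_of_rv (stdGaussian (EuclideanSpace ℂ (Fin d))) hd3 (fun x => x)
    IsGaussian.integrable_id K (Real.sqrt (Real.pi / 2)) hK (by positivity)
    (fun v hv => ?_) ?_
  · have h := integral_norm_inner_complex v hv 1 (by norm_num)
    simp only [Real.rpow_one] at h
    rw [h]
    apply le_of_eq
    rw [show (1 : ℝ) + 1 / 2 = 1 / 2 + 1 by norm_num, Real.Gamma_add_one (by norm_num),
      Real.Gamma_one_half_eq, ← Real.sqrt_eq_rpow, Real.sqrt_div hpi.le]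
    have h2 : Real.sqrt 2 * Real.sqrt 2 = 2 := Real.mul_self_sqrt (by norm_num)
    have h3 : Real.sqrt 2 ≠ 0 := by positivity
    field_simp
    rw [pow_two, h2]
  rw [hm]
  have hfr : finrank ℝ (EuclideanSpace ℂ (Fin d)) = 2 * d := by
    rw [← finrank_mul_finrank ℝ ℂ (EuclideanSpace ℂ (Fin d)), finrank_euclideanSpace,
      Complex.finrank_real_complex, Fintype.card_fin]
  have h1 := integral_norm_ge (F := EuclideanSpace ℂ (Fin d)) (by rw [hfr]; omega)
  rw [hfr] at h1
  push_cast at h1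
  have h2 : 0 ≤ 1 - VV / (4 * (d : ℝ)) := by
    rw [sub_nonneg, div_le_one (by positivity)]
    exact hd2.le
  rw [show (2 : ℝ) * (2 * (d : ℝ)) = 4 * d by ring] at h1
  have h3 : 2 * (1 - VV / (4 * (d : ℝ))) ^ 2 ≤
      (∫ x : EuclideanSpace ℂ (Fin d), ‖x‖ ∂(stdGaussian (EuclideanSpace ℂ (Fin d)))) ^ 2 / d := by
    rw [le_div_iff₀ hd']
    calc 2 * (1 - VV / (4 * (d : ℝ))) ^ 2 * d =
          (Real.sqrt (2 * d) * (1 - VV / (4 * (d : ℝ)))) ^ 2 := by
          rw [mul_pow, Real.sq_sqrt (by positivity)]; ring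
      _ ≤ _ := by
          apply pow_le_pow_left₀ (by positivity) h1
  linarith

end Pool.Agent.H809R2.GI
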