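import Pool.Agent.H809R2.GI.Gauss

set_option autoImplicit false

namespace Pool.Agent.H809R2.GI

open MeasureTheory ProbabilityTheory Complex Set
open scoped RealInnerProductSpace

section real

variable {F : Type*} [NormedAddCommGroup F] [InnerProductSpace ℝ F] [FiniteDimensional ℝ F]
  [MeasurableSpace F] [BorelSpace F]

lemma integral_exp_inner (v : F) :
    ∫ g, cexp ((⟪v, g⟫ : ℝ) * I) ∂(stdGaussian F) = cexp (-‖v‖ ^ 2 / 2) := by
  have h := charFun_stdGaussian v
  rw [charFun_apply] at h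
  rw [← h]
  congr 1
  ext g
  rw [real_inner_comm]

lemma charFun_pair (x y : F) (t : ℂ) :
    charFun ((stdGaussian F).map (fun g => ((⟪x, g⟫ : ℝ) : ℂ) + ((⟪y, g⟫ : ℝ) : ℂ) * I)) t =
      cexp (-((t.re ^ 2 * ‖x‖ ^ 2 + 2 * t.re * t.im * ⟪x, y⟫ + t.im ^ 2 * ‖y‖ ^ 2 : ℝ) : ℂ) / 2) := by
  rw [charFun_apply, integral_map (by fun_prop) (by fun_prop)]
  have h := integral_exp_inner (F := F) (t.re • x + t.im • y)
  have h1 : (‖t.re • x + t.im • y‖ ^ 2 : ℝ) =
      t.re ^ 2 * ‖x‖ ^ 2 + 2 * t.re * t.im * ⟪x, y⟫ + t.im ^ 2 * ‖y‖ ^ 2 := by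
    rw [norm_add_sq_real, norm_smul, norm_smul, inner_smul_left, inner_smul_right, mul_pow, mul_pow,
      Real.norm_eq_abs, Real.norm_eq_abs, sq_abs, sq_abs]
    simp
    ring
  rw [← h1]
  push_cast
  rw [← h]
  congr 1
  ext g
  have e : (⟪t.re • x + t.im • y, g⟫ : ℝ) = t.re * ⟪x, g⟫ + t.im * ⟪y, g⟫ := by
    rw [inner_add_left, inner_smul_left, inner_smul_left]
    simp
  congr 2
  rw [e, Complex.inner]
  simp

lemma law_pair {F' : Type*} [NormedAddCommGroup F'] [InnerProductSpace ℝ F']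
    [FiniteDimensional ℝ F'] [MeasurableSpace F'] [BorelSpace F'] (x y : F) (x' y' : F')
    (hx : ‖x‖ = ‖x'‖) (hy : ‖y‖ = ‖y'‖) (hxy : (⟪x, y⟫ : ℝ) = ⟪x', y'⟫) :
    (stdGaussian F).map (fun g => ((⟪x, g⟫ : ℝ) : ℂ) + ((⟪y, g⟫ : ℝ) : ℂ) * I) =
      (stdGaussian F').map (fun g => ((⟪x', g⟫ : ℝ) : ℂ) + ((⟪y', g⟫ : ℝ) : ℂ) * I) := by
  have : IsFiniteMeasure ((stdGaussian F).map
      (fun g => ((⟪x, g⟫ : ℝ) : ℂ) + ((⟪y, g⟫ : ℝ) : ℂ) * I)) := by
    apply Measure.isFiniteMeasure_map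
  have : IsFiniteMeasure ((stdGaussian F').map
      (fun g => ((⟪x', g⟫ : ℝ) : ℂ) + ((⟪y', g⟫ : ℝ) : ℂ) * I)) := by
    apply Measure.isFiniteMeasure_map
  apply Measure.ext_of_charFun
  ext t
  rw [charFun_pair, charFun_pair, hx, hy, hxy]

/-- `±1`-valued sign -/
noncomputable def sg (t : ℝ) : ℝ := if 0 ≤ t then 1 else -1

lemma sg_of_nonneg {t : ℝ} (h : 0 ≤ t) : sg t = 1 := if_pos h
lemma sg_of_neg {t : ℝ} (h : t < 0) : sg t = -1 := if_neg (not_le.mpr h)

lemma measurable_sg : Measurable sg :=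
  Measurable.ite measurableSet_Ici measurable_const measurable_const

lemma abs_sg (t : ℝ) : |sg t| = 1 := by
  unfold sg; split_ifs <;> simp

lemma sg_mul_pos {r t : ℝ} (hr : 0 < r) : sg (r * t) = sg t := by
  unfold sg
  have : 0 ≤ r * t ↔ 0 ≤ t := by
    constructor
    · intro h; exact nonneg_of_mul_nonneg_right h hr
    · intro h; positivity
  simp [this]

lemma angular (β : ℝ) (h1 : -(Real.pi / 2) ≤ β) (h2 : β ≤ Real.pi / 2) :
    ∫ t in Ioo (-Real.pi) Real.pi, sg (Real.cos t) * sg (Real.sin (t + β)) = 4 * β := by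
  have hpi := Real.pi_pos
  set h : ℝ → ℝ := fun t => sg (Real.cos t) * sg (Real.sin (t + β)) with hh
  have hmeas : Measurable h := by
    apply Measurable.mul
    · exact measurable_sg.comp Real.measurable_cos
    · exact measurable_sg.comp (Real.measurable_sin.comp (measurable_id.add_const β))
  have hbd : ∀ t, ‖h t‖ ≤ 1 := by
    intro t
    simp only [hh, norm_mul, Real.norm_eq_abs, abs_sg]
    norm_num
  have hint : ∀ a b, IntervalIntegrable h volume a b := by
    intro a b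
    rw [intervalIntegrable_iff]
    apply Measure.integrableOn_of_bounded (M := 1)
    · simp
    · exact hmeas.aestronglyMeasurable
    · exact Filter.Eventually.of_forall hbd
  have hper : Function.Periodic h (2 * Real.pi) := by
    intro t
    simp only [hh]
    rw [Real.cos_add_two_pi, show t + 2 * Real.pi + β = t + β + 2 * Real.pi by ring,
      Real.sin_add_two_pi]
  have e1 : ∫ t in Ioo (-Real.pi) Real.pi, h t = ∫ t in (-Real.pi)..(-Real.pi + 2 * Real.pi), h t := by
    rw [intervalIntegral.integral_of_le (by linarith), integral_Ioc_eq_integral_Ioo]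
    congr 2
    ring_nf
  rw [e1, hper.intervalIntegral_add_eq (-Real.pi) (-(Real.pi / 2))]
  have e2 : ∫ t in (-(Real.pi / 2))..(-(Real.pi / 2) + 2 * Real.pi), h t =
      (∫ t in (-(Real.pi / 2))..(-β), h t) + (∫ t in (-β)..(Real.pi / 2), h t) +
      (∫ t in (Real.pi / 2)..(Real.pi - β), h t) +
      (∫ t in (Real.pi - β)..(-(Real.pi / 2) + 2 * Real.pi), h t) := by
    rw [intervalIntegral.integral_add_adjacent_intervals (hint _ _) (hint _ _),
      intervalIntegral.integral_add_adjacent_intervals (hint _ _) (hint _ _),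
      intervalIntegral.integral_add_adjacent_intervals (hint _ _) (hint _ _)]
  rw [e2]
  have i1 : ∫ t in (-(Real.pi / 2))..(-β), h t = ∫ t in (-(Real.pi / 2))..(-β), (-1 : ℝ) := by
    apply intervalIntegral.integral_congr_Ioo_of_le (by linarith)
    intro t ht
    simp only [hh]
    rw [sg_of_nonneg, sg_of_neg]
    · norm_num
    · exact Real.sin_neg_of_neg_of_neg_pi_lt (by linarith [ht.2]) (by linarith [ht.1])
    · exact (Real.cos_pos_of_mem_Ioo ⟨by linarith [ht.1], by linarith [ht.2]⟩).le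
  have i2 : ∫ t in (-β)..(Real.pi / 2), h t = ∫ t in (-β)..(Real.pi / 2), (1 : ℝ) := by
    apply intervalIntegral.integral_congr_Ioo_of_le (by linarith)
    intro t ht
    simp only [hh]
    rw [sg_of_nonneg, sg_of_nonneg]
    · norm_num
    · exact (Real.sin_pos_of_mem_Ioo ⟨by linarith [ht.1], by linarith [ht.2]⟩).le
    · exact (Real.cos_pos_of_mem_Ioo ⟨by linarith [ht.1], by linarith [ht.2]⟩).le
  have i3 : ∫ t in (Real.pi / 2)..(Real.pi - β), h t =
      ∫ t in (Real.pi / 2)..(Real.pi - β), (-1 : ℝ) := by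
    apply intervalIntegral.integral_congr_Ioo_of_le (by linarith)
    intro t ht
    simp only [hh]
    rw [sg_of_neg, sg_of_nonneg]
    · norm_num
    · exact (Real.sin_pos_of_mem_Ioo ⟨by linarith [ht.1], by linarith [ht.2]⟩).le
    · exact Real.cos_neg_of_pi_div_two_lt_of_lt (by linarith [ht.1]) (by linarith [ht.2])
  have i4 : ∫ t in (Real.pi - β)..(-(Real.pi / 2) + 2 * Real.pi), h t =
      ∫ t in (Real.pi - β)..(-(Real.pi / 2) + 2 * Real.pi), (1 : ℝ) := by
    apply intervalIntegral.integral_congr_Ioo_of_le (by linarith)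
    intro t ht
    simp only [hh]
    rw [sg_of_neg, sg_of_neg]
    · norm_num
    · have : Real.sin (t + β) = Real.sin (t + β - 2 * Real.pi) := (Real.sin_sub_two_pi _).symm
      rw [this]
      exact Real.sin_neg_of_neg_of_neg_pi_lt (by linarith [ht.2]) (by linarith [ht.1])
    · exact Real.cos_neg_of_pi_div_two_lt_of_lt (by linarith [ht.1]) (by linarith [ht.2])
  rw [i1, i2, i3, i4]
  simp only [intervalIntegral.integral_const, smul_eq_mul]
  ring

lemma grothendieck_identity_complex (β : ℝ) (h1 : -(Real.pi / 2) ≤ β) (h2 : β ≤ Real.pi / 2) :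
    ∫ z : ℂ, sg z.re * sg (Real.sin β * z.re + Real.cos β * z.im) ∂(stdGaussian ℂ) =
      2 / Real.pi * β := by
  rw [integral_stdGaussian_complex, ← Complex.integral_comp_polarCoord_symm, polarCoord_target]
  have e1 : ∀ p ∈ Ioi (0 : ℝ) ×ˢ Ioo (-Real.pi) Real.pi,
      p.1 • (((2 * Real.pi)⁻¹ * Real.exp (-(1 / 2) * ‖Complex.polarCoord.symm p‖ ^ 2)) •
        (sg (Complex.polarCoord.symm p).re *
          sg (Real.sin β * (Complex.polarCoord.symm p).re +
            Real.cos β * (Complex.polarCoord.symm p).im))) =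
      (p.1 * ((2 * Real.pi)⁻¹ * Real.exp (-(1 / 2) * p.1 ^ 2))) *
        (sg (Real.cos p.2) * sg (Real.sin (p.2 + β))) := by
    rintro ⟨r, t⟩ ⟨hr, ht⟩
    simp only [mem_Ioi] at hr
    rw [Complex.norm_polarCoord_symm, sq_abs]
    have hre : (Complex.polarCoord.symm (r, t)).re = r * Real.cos t := by
      rw [Complex.polarCoord_symm_apply]
      simp [Complex.cos_ofReal_re, Complex.sin_ofReal_im]
    have him : (Complex.polarCoord.symm (r, t)).im = r * Real.sin t := by
      rw [Complex.polarCoord_symm_apply]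
      simp [Complex.sin_ofReal_re, Complex.cos_ofReal_im]
    rw [hre, him]
    have : Real.sin β * (r * Real.cos t) + Real.cos β * (r * Real.sin t) =
        r * Real.sin (t + β) := by
      rw [Real.sin_add]; ring
    rw [this, sg_mul_pos hr, sg_mul_pos hr]
    simp only [smul_eq_mul]
    ring
  rw [setIntegral_congr_fun (measurableSet_Ioi.prod measurableSet_Ioo) e1, Measure.volume_eq_prod,
    setIntegral_prod_mul (fun r : ℝ => r * ((2 * Real.pi)⁻¹ * Real.exp (-(1 / 2) * r ^ 2)))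
      (fun t : ℝ => sg (Real.cos t) * sg (Real.sin (t + β))), angular β h1 h2]
  have e2 : ∫ r in Ioi (0 : ℝ), r * ((2 * Real.pi)⁻¹ * Real.exp (-(1 / 2) * r ^ 2)) =
      (2 * Real.pi)⁻¹ := by
    have h := _root_.integral_rpow_mul_exp_neg_mul_rpow (p := 2) (q := 1) (b := 1 / 2)
      (by norm_num) (by norm_num) (by norm_num)
    have e3 : ∀ r ∈ Ioi (0 : ℝ), r * ((2 * Real.pi)⁻¹ * Real.exp (-(1 / 2) * r ^ 2)) =
        (2 * Real.pi)⁻¹ * (r ^ (1 : ℝ) * Real.exp (-(1 / 2) * r ^ (2 : ℝ))) := by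
      intro r _
      rw [Real.rpow_one, Real.rpow_two]
      ring
    rw [setIntegral_congr_fun measurableSet_Ioi e3, integral_const_mul, h]
    norm_num
  rw [e2]
  have := Real.pi_pos
  field_simp
  ring

/-- Grothendieck's identity -/
lemma grothendieck_identity (x y : F) (hx : ‖x‖ = 1) (hy : ‖y‖ = 1) :
    ∫ g, sg ⟪x, g⟫ * sg ⟪y, g⟫ ∂(stdGaussian F) = 2 / Real.pi * Real.arcsin ⟪x, y⟫ := by
  set β := Real.arcsin ⟪x, y⟫ with hβ
  have hb1 : -1 ≤ (⟪x, y⟫ : ℝ) := by
    have := abs_real_inner_le_norm x y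
    rw [hx, hy] at this
    linarith [neg_abs_le (⟪x, y⟫ : ℝ)]
  have hb2 : (⟪x, y⟫ : ℝ) ≤ 1 := by
    have := real_inner_le_norm x y
    rw [hx, hy] at this
    linarith
  have hsin : Real.sin β = ⟪x, y⟫ := Real.sin_arcsin hb1 hb2
  rw [← grothendieck_identity_complex β (Real.neg_pi_div_two_le_arcsin _)
    (Real.arcsin_le_pi_div_two _)]
  have hy' : ‖((Real.sin β : ℝ) : ℂ) + ((Real.cos β : ℝ) : ℂ) * I‖ = 1 := by
    rw [Complex.norm_def, Complex.normSq_add_mul_I, Real.sin_sq_add_cos_sq, Real.sqrt_one]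
  have hlaw := law_pair x y (1 : ℂ) (((Real.sin β : ℝ) : ℂ) + ((Real.cos β : ℝ) : ℂ) * I)
    (by rw [hx]; simp) (by rw [hy, hy']) (by rw [← hsin, Complex.inner]; simp [Complex.sin_ofReal_re])
  have hmeas : Measurable (fun z : ℂ => sg z.re * sg z.im) :=
    (measurable_sg.comp Complex.measurable_re).mul (measurable_sg.comp Complex.measurable_im)
  have e1 : ∫ g, sg ⟪x, g⟫ * sg ⟪y, g⟫ ∂(stdGaussian F) =
      ∫ z, sg z.re * sg z.im ∂((stdGaussian F).map
        (fun g => ((⟪x, g⟫ : ℝ) : ℂ) + ((⟪y, g⟫ : ℝ) : ℂ) * I)) := by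
    rw [integral_map (by fun_prop) hmeas.aestronglyMeasurable]
    simp
  rw [e1, hlaw, integral_map (by fun_prop) hmeas.aestronglyMeasurable]
  congr 1
  ext z
  congr 2
  · simp [Complex.inner]
  · simp [Complex.inner, Complex.sin_ofReal_re, Complex.cos_ofReal_re]
    ring

end real

end Pool.Agent.H809R2.GI
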