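import Pool.Agent.H809R2.GI.Defs
import Pool.Agent.H809R2.GI.Gauss2

set_option autoImplicit false

namespace Pool.Agent.H809R2.GI

open MeasureTheory ProbabilityTheory Matrix
open scoped RealInnerProductSpace

section sign

variable {𝕜 : Type} [RCLike 𝕜] {m n : ℕ}

lemma signNorm_bdd (A : Matrix (Fin m) (Fin n) 𝕜) : BddAbove {r : ℝ | ∃ (p : Fin m → 𝕜)
    (q : Fin n → 𝕜), (∀ i, ‖p i‖ = 1) ∧ (∀ j, ‖q j‖ = 1) ∧
    r = ‖∑ i, ∑ j, A i j * p i * q j‖} := by
  refine ⟨∑ i, ∑ j, ‖A i j‖, ?_⟩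
  rintro r ⟨p, q, hp, hq, rfl⟩
  refine (norm_sum_le _ _).trans (Finset.sum_le_sum fun i _ => ?_)
  refine (norm_sum_le _ _).trans (Finset.sum_le_sum fun j _ => ?_)
  rw [norm_mul, norm_mul, hp, hq, mul_one, mul_one]

lemma le_signNorm (A : Matrix (Fin m) (Fin n) 𝕜) (p : Fin m → 𝕜) (q : Fin n → 𝕜)
    (hp : ∀ i, ‖p i‖ = 1) (hq : ∀ j, ‖q j‖ = 1) :
    ‖∑ i, ∑ j, A i j * p i * q j‖ ≤ signNorm A :=
  le_csSup (signNorm_bdd A) ⟨p, q, hp, hq, rfl⟩

lemma signNorm_nonneg (A : Matrix (Fin m) (Fin n) 𝕜) : 0 ≤ signNorm A :=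
  (norm_nonneg _).trans (le_signNorm A (fun _ => 1) (fun _ => 1) (by simp) (by simp))

/-- the random version -/
lemma integral_le_signNorm {Ω : Type*} [MeasurableSpace Ω] (P : Measure Ω) [IsProbabilityMeasure P]
    (A : Matrix (Fin m) (Fin n) 𝕜) (p : Fin m → Ω → 𝕜) (q : Fin n → Ω → 𝕜)
    (hp : ∀ i ω, ‖p i ω‖ = 1) (hq : ∀ j ω, ‖q j ω‖ = 1)
    (hpm : ∀ i, AEStronglyMeasurable (p i) P) (hqm : ∀ j, AEStronglyMeasurable (q j) P) :
    ‖∑ i, ∑ j, A i j * ∫ ω, p i ω * q j ω ∂P‖ ≤ signNorm A := by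
  have hint : ∀ i j, Integrable (fun ω => p i ω * q j ω) P := by
    intro i j
    refine Integrable.of_bound ((hpm i).mul (hqm j)) 1 (Filter.Eventually.of_forall fun ω => ?_)
    rw [norm_mul, hp, hq, mul_one]
  have h1 : ∑ i, ∑ j, A i j * ∫ ω, p i ω * q j ω ∂P =
      ∫ ω, ∑ i, ∑ j, A i j * p i ω * q j ω ∂P := by
    rw [integral_finsetSum]
    · apply Finset.sum_congr rfl
      intro i _
      rw [integral_finsetSum]
      · apply Finset.sum_congr rfl
        intro j _
        rw [← integral_const_mul]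
        congr 1
        ext ω
        ring
      · intro j _
        have := (hint i j).const_mul (A i j)
        refine this.congr (Filter.Eventually.of_forall fun ω => ?_)
        simp only
        ring
    · intro i _
      apply integrable_finsetSum
      intro j _
      have := (hint i j).const_mul (A i j)
      refine this.congr (Filter.Eventually.of_forall fun ω => ?_)
      simp only
      ring
  rw [h1]
  refine (norm_integral_le_of_norm_le_const (C := signNorm A)
    (Filter.Eventually.of_forall fun ω => ?_)).trans ?_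
  · exact le_signNorm A (fun i => p i ω) (fun j => q j ω) (fun i => hp i ω) (fun j => hq j ω)
  · simp

end sign

/-- Krivine's vectors -/
lemma krivine_vectors {m n : ℕ} {H : Type*} [NormedAddCommGroup H] [InnerProductSpace ℝ H]
    (u : Fin m → H) (v : Fin n → H) (hu : ∀ i, ‖u i‖ = 1) (hv : ∀ j, ‖v j‖ = 1) (c : ℝ)
    (hc0 : 0 ≤ c) (hc : Real.sinh c = 1) :
    ∃ (u' : Fin m → EuclideanSpace ℝ (Fin m ⊕ Fin n)) (v' : Fin n → EuclideanSpace ℝ (Fin m ⊕ Fin n)),
      (∀ i, ‖u' i‖ = 1) ∧ (∀ j, ‖v' j‖ = 1) ∧ ∀ i j, (⟪u' i, v' j⟫ : ℝ) = Real.sin (c * ⟪u i, v j⟫) := by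
  classical
  let I := Fin m ⊕ Fin n
  let x : I → H := Sum.elim u v
  let s : ℕ → I → ℝ := fun k => Sum.elim (fun _ => 1) (fun _ => (-1) ^ k)
  -- the terms of the series
  let T : ℕ → Matrix I I ℝ := fun k =>
    (c ^ (2 * k + 1) / ((2 * k + 1).factorial : ℝ)) •
      (Matrix.vecMulVec (s k) (s k) ⊙ Matrix.of (fun a b => (⟪x a, x b⟫ : ℝ) ^ (2 * k + 1)))
  have hpow : ∀ l : ℕ, (Matrix.of (fun a b => (⟪x a, x b⟫ : ℝ) ^ l) : Matrix I I ℝ).PosSemidef := by
    intro l
    induction l with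
    | zero =>
      have : (Matrix.of (fun a b => (⟪x a, x b⟫ : ℝ) ^ 0) : Matrix I I ℝ) =
          Matrix.vecMulVec (fun _ => 1) (star (fun _ => 1)) := by
        ext a b
        simp [Matrix.vecMulVec_apply]
      rw [this]
      exact Matrix.posSemidef_vecMulVec_self_star _
    | succ l ih =>
      have : (Matrix.of (fun a b => (⟪x a, x b⟫ : ℝ) ^ (l + 1)) : Matrix I I ℝ) =
          (Matrix.of (fun a b => (⟪x a, x b⟫ : ℝ) ^ l) : Matrix I I ℝ) ⊙ Matrix.gram ℝ x := by
        ext a b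
        simp [Matrix.hadamard_apply, pow_succ, Matrix.gram_apply]
      rw [this]
      exact ih.hadamard (Matrix.posSemidef_gram ℝ x)
  have hT : ∀ k, (T k).PosSemidef := by
    intro k
    apply Matrix.PosSemidef.smul
    · apply Matrix.PosSemidef.hadamard _ (hpow _)
      have := Matrix.posSemidef_vecMulVec_self_star (s k)
      simpa using this
    · positivity
  let M : Matrix I I ℝ := Matrix.of fun a b => match a, b with
    | Sum.inl i, Sum.inl i' => Real.sinh (c * ⟪u i, u i'⟫)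
    | Sum.inl i, Sum.inr j => Real.sin (c * ⟪u i, v j⟫)
    | Sum.inr j, Sum.inl i => Real.sin (c * ⟪v j, u i⟫)
    | Sum.inr j, Sum.inr j' => Real.sinh (c * ⟪v j, v j'⟫)
  have hsum : ∀ a b, HasSum (fun k => T k a b) (M a b) := by
    intro a b
    rcases a with i | j <;> rcases b with i' | j'
    · change HasSum (fun k => T k (Sum.inl i) (Sum.inl i')) (Real.sinh (c * ⟪u i, u i'⟫))
      have h := Real.hasSum_sinh (c * ⟪u i, u i'⟫)
      convert h using 1
      ext k
      simp [T, s, x, Matrix.vecMulVec_apply, Matrix.hadamard_apply, mul_pow]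
      ring
    · change HasSum (fun k => T k (Sum.inl i) (Sum.inr j')) (Real.sin (c * ⟪u i, v j'⟫))
      have h := Real.hasSum_sin (c * ⟪u i, v j'⟫)
      convert h using 1
      ext k
      simp [T, s, x, Matrix.vecMulVec_apply, Matrix.hadamard_apply, mul_pow]
      ring
    · change HasSum (fun k => T k (Sum.inr j) (Sum.inl i')) (Real.sin (c * ⟪v j, u i'⟫))
      have h := Real.hasSum_sin (c * ⟪v j, u i'⟫)
      convert h using 1
      ext k
      simp [T, s, x, Matrix.vecMulVec_apply, Matrix.hadamard_apply, mul_pow]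
      ring
    · change HasSum (fun k => T k (Sum.inr j) (Sum.inr j')) (Real.sinh (c * ⟪v j, v j'⟫))
      have h := Real.hasSum_sinh (c * ⟪v j, v j'⟫)
      convert h using 1
      ext k
      have h1 : ((-1 : ℝ) ^ k) * (-1) ^ k = 1 := by
        rw [← mul_pow]; simp
      simp [T, s, x, Matrix.vecMulVec_apply, Matrix.hadamard_apply, mul_pow, h1]
      ring
  have hM : M.PosSemidef := by
    refine Matrix.PosSemidef.of_dotProduct_mulVec_nonneg ?_ ?_
    · ext a b
      rcases a with i | j <;> rcases b with i' | j' <;>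
        simp [M, Matrix.conjTranspose_apply, real_inner_comm]
    · intro y
      have h1 : HasSum (fun k => star y ⬝ᵥ (T k) *ᵥ y) (star y ⬝ᵥ M *ᵥ y) := by
        simp only [dotProduct, mulVec]
        apply hasSum_sum
        intro a _
        apply HasSum.mul_left
        apply hasSum_sum
        intro b _
        exact (hsum a b).mul_right _
      exact h1.nonneg fun k => (hT k).dotProduct_mulVec_nonneg y
  obtain ⟨B, hB⟩ : ∃ B : Matrix I I ℝ, M = Bᵀ * B := by
    open scoped Matrix.Norms.L2Operator MatrixOrder in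
    obtain ⟨B, hB⟩ := CStarAlgebra.nonneg_iff_eq_star_mul_self.mp hM.nonneg
    refine ⟨B, ?_⟩
    rw [hB, star_eq_conjTranspose, conjTranspose_eq_transpose_of_trivial]
  let w : I → EuclideanSpace ℝ I := fun a => WithLp.toLp 2 (fun k => B k a)
  have hw : ∀ a b, (⟪w a, w b⟫ : ℝ) = M a b := by
    intro a b
    rw [hB]
    simp [w, PiLp.inner_apply, Matrix.mul_apply, mul_comm]
  have hnorm : ∀ a, M a a = 1 → ‖w a‖ = 1 := by
    intro a ha
    have h1 : ‖w a‖ ^ 2 = 1 := by
      rw [← real_inner_self_eq_norm_sq, hw, ha]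
    have h2 := norm_nonneg (w a)
    nlinarith
  refine ⟨fun i => w (Sum.inl i), fun j => w (Sum.inr j), ?_, ?_, ?_⟩
  · intro i
    apply hnorm
    simp [M, hu, hc]
  · intro j
    apply hnorm
    simp [M, hv, hc]
  · intro i j
    rw [hw]
    simp [M]

theorem krivine : IsGrothendieckBound ℝ (Real.pi / (2 * Real.arsinh 1)) := by
  set c := Real.arsinh 1 with hc
  have hsc : Real.sinh c = 1 := Real.sinh_arsinh 1
  have hc0 : 0 < c := Real.arsinh_pos_iff.mpr one_pos
  have hc1 : c ≤ 1 := by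
    rw [← hsc]
    exact Real.self_le_sinh_iff.mpr hc0.le
  have hpi := Real.pi_gt_three
  refine ⟨by positivity, ?_⟩
  intro m n A H _ _ _ u v hu hv
  obtain ⟨u', v', hu', hv', huv⟩ := krivine_vectors u v hu hv c hc0.le hsc
  have h1 := integral_le_signNorm (stdGaussian (EuclideanSpace ℝ (Fin m ⊕ Fin n))) A
    (fun i g => sg ⟪u' i, g⟫) (fun j g => sg ⟪v' j, g⟫) (fun i g => by
      rw [Real.norm_eq_abs, abs_sg]) (fun j g => by rw [Real.norm_eq_abs, abs_sg])
    (fun i => (measurable_sg.comp (by fun_prop)).aestronglyMeasurable)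
    (fun j => (measurable_sg.comp (by fun_prop)).aestronglyMeasurable)
  have h2 : ∀ i j, ∫ g, sg ⟪u' i, g⟫ * sg ⟪v' j, g⟫
      ∂(stdGaussian (EuclideanSpace ℝ (Fin m ⊕ Fin n))) = 2 * c / Real.pi * ⟪u i, v j⟫ := by
    intro i j
    rw [grothendieck_identity _ _ (hu' i) (hv' j), huv, Real.arcsin_sin]
    · ring
    · have h3 := abs_real_inner_le_norm (u i) (v j)
      rw [hu, hv, mul_one] at h3
      have h4 := neg_abs_le (⟪u i, v j⟫ : ℝ)
      nlinarith
    · have h3 := real_inner_le_norm (u i) (v j)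
      rw [hu, hv, mul_one] at h3
      nlinarith
  simp only [h2] at h1
  have h3 : ∑ i, ∑ j, A i j * (2 * c / Real.pi * (⟪u i, v j⟫ : ℝ)) =
      2 * c / Real.pi * ∑ i, ∑ j, A i j * (⟪u i, v j⟫ : ℝ) := by
    rw [Finset.mul_sum]
    apply Finset.sum_congr rfl
    intro i _
    rw [Finset.mul_sum]
    apply Finset.sum_congr rfl
    intro j _
    ring
  rw [h3, norm_mul, Real.norm_of_nonneg (by positivity)] at h1
  have h4 : ‖∑ i, ∑ j, A i j * (⟪u i, v j⟫ : ℝ)‖ =
      Real.pi / (2 * c) * (2 * c / Real.pi * ‖∑ i, ∑ j, A i j * (⟪u i, v j⟫ : ℝ)‖) := by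
    field_simp
  rw [h4]
  gcongr

end Pool.Agent.H809R2.GI
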