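import Pool.Agent.H809R2.GI.Strip
import Pool.Agent.H809R2.GI.Lower4
import Pool.Agent.H809R2.GI.RealUpper

set_option autoImplicit false

namespace Pool.Agent.H809R2.GI

open MeasureTheory ProbabilityTheory Complex Matrix
open scoped ComplexConjugate

/-- the unimodular sign of a complex number -/
noncomputable def sgC (w : ℂ) : ℂ := if w = 0 then 1 else w / (‖w‖ : ℂ)

lemma norm_sgC (w : ℂ) : ‖sgC w‖ = 1 := by
  unfold sgC
  split_ifs with h
  · simp
  · rw [norm_div, Complex.norm_real, norm_norm, div_self (norm_ne_zero_iff.mpr h)]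

lemma measurable_sgC : Measurable sgC := by
  unfold sgC
  apply Measurable.ite (measurableSet_singleton 0) measurable_const
  fun_prop

/-- `HB A C`: the form `A` is bounded by `C` on unit vectors of complex inner product spaces -/
def HB {m n : ℕ} (A : Matrix (Fin m) (Fin n) ℂ) (C : ℝ) : Prop :=
  ∀ (H : Type) [NormedAddCommGroup H] [InnerProductSpace ℂ H] (u : Fin m → H) (v : Fin n → H),
    (∀ i, ‖u i‖ = 1) → (∀ j, ‖v j‖ = 1) → ‖∑ i, ∑ j, A i j * inner ℂ (u i) (v j)‖ ≤ C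

section HB

variable {m n : ℕ} {A : Matrix (Fin m) (Fin n) ℂ} {C : ℝ}

lemma HB.nonneg (h : HB A C) : 0 ≤ C :=
  (norm_nonneg _).trans (h ℂ (fun _ => 1) (fun _ => 1) (by simp) (by simp))

lemma HB.scaled (h : HB A C) {H : Type} [NormedAddCommGroup H] [InnerProductSpace ℂ H]
    (u : Fin m → H) (v : Fin n → H) (r : ℝ) (hr : 0 ≤ r) (hu : ∀ i, ‖u i‖ = r)
    (hv : ∀ j, ‖v j‖ = r) : ‖∑ i, ∑ j, A i j * inner ℂ (u i) (v j)‖ ≤ C * r ^ 2 := by
  rcases hr.eq_or_lt with h0 | h0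
  · have hu0 : ∀ i, u i = 0 := fun i => norm_eq_zero.mp (by rw [hu, h0])
    simp [hu0, ← h0]
  · have h1 := h H (fun i => ((r⁻¹ : ℝ) : ℂ) • u i) (fun j => ((r⁻¹ : ℝ) : ℂ) • v j)
      (fun i => by
        rw [norm_smul, Complex.norm_real, Real.norm_of_nonneg (by positivity), hu,
          inv_mul_cancel₀ h0.ne'])
      (fun j => by
        rw [norm_smul, Complex.norm_real, Real.norm_of_nonneg (by positivity), hv,
          inv_mul_cancel₀ h0.ne'])
    have h2 : ∑ i, ∑ j, A i j * inner ℂ (u i) (v j) =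
        ((r ^ 2 : ℝ) : ℂ) * ∑ i, ∑ j, A i j *
          inner ℂ (((r⁻¹ : ℝ) : ℂ) • u i) (((r⁻¹ : ℝ) : ℂ) • v j) := by
      rw [Finset.mul_sum]
      apply Finset.sum_congr rfl
      intro i _
      rw [Finset.mul_sum]
      apply Finset.sum_congr rfl
      intro j _
      rw [inner_smul_left, inner_smul_right, Complex.conj_ofReal]
      have : (r : ℂ) ≠ 0 := by exact_mod_cast h0.ne'
      push_cast
      field_simp
    rw [h2, norm_mul, Complex.norm_real, Real.norm_of_nonneg (by positivity), mul_comm C]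
    gcongr

lemma HB.L2 (h : HB A C) {Ω : Type} [MeasurableSpace Ω] (μ : Measure Ω) (a : Fin m → Ω → ℂ)
    (b : Fin n → Ω → ℂ) (ha : ∀ i, MemLp (a i) 2 μ) (hb : ∀ j, MemLp (b j) 2 μ) (ρ : ℝ)
    (hρ : 0 ≤ ρ)
    (hai : ∀ i, ∫ ω, ‖a i ω‖ ^ 2 ∂μ = ρ) (hbj : ∀ j, ∫ ω, ‖b j ω‖ ^ 2 ∂μ = ρ) :
    ‖∑ i, ∑ j, A i j * ∫ ω, conj (a i ω) * b j ω ∂μ‖ ≤ C * ρ := by
  have hnorm : ∀ (f : Ω → ℂ) (hf : MemLp f 2 μ), ∫ ω, ‖f ω‖ ^ 2 ∂μ = ρ →
      ‖hf.toLp f‖ = Real.sqrt ρ := by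
    intro f hf hfρ
    have h1 : ‖hf.toLp f‖ ^ 2 = ρ := by
      have h2 := inner_self_eq_norm_sq_to_K (𝕜 := ℂ) (hf.toLp f)
      rw [L2.inner_def] at h2
      have h3 : ∫ ω, inner ℂ ((hf.toLp f : Lp ℂ 2 μ) ω) ((hf.toLp f : Lp ℂ 2 μ) ω) ∂μ =
          ((∫ ω, ‖f ω‖ ^ 2 ∂μ : ℝ) : ℂ) := by
        rw [← integral_complex_ofReal]
        apply integral_congr_ae
        filter_upwards [hf.coeFn_toLp] with ω hω
        rw [hω, inner_self_eq_norm_sq_to_K]
        simp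
      rw [h3, hfρ] at h2
      have h4 : ((ρ : ℝ) : ℂ) = ((‖hf.toLp f‖ ^ 2 : ℝ) : ℂ) := by
        rw [h2]; simp
      exact (Complex.ofReal_injective h4).symm
    rw [← h1, Real.sqrt_sq (norm_nonneg _)]
  have h1 := h.scaled (fun i => (ha i).toLp (a i)) (fun j => (hb j).toLp (b j)) (Real.sqrt ρ)
    (Real.sqrt_nonneg _) (fun i => hnorm _ _ (hai i)) (fun j => hnorm _ _ (hbj j))
  rw [Real.sq_sqrt hρ] at h1
  refine le_trans (le_of_eq ?_) h1
  congr 1
  apply Finset.sum_congr rfl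
  intro i _
  apply Finset.sum_congr rfl
  intro j _
  congr 1
  rw [L2.inner_def]
  apply integral_congr_ae
  filter_upwards [(ha i).coeFn_toLp, (hb j).coeFn_toLp] with ω h2 h3
  rw [h2, h3, RCLike.inner_apply, mul_comm]

end HB

/-- transfer of vectors to a Euclidean space -/
lemma gram_transfer {m n : ℕ} {H : Type} [NormedAddCommGroup H] [InnerProductSpace ℂ H]
    (u : Fin m → H) (v : Fin n → H) (hu : ∀ i, ‖u i‖ = 1) (hv : ∀ j, ‖v j‖ = 1) :
    ∃ (x : Fin m → EuclideanSpace ℂ (Fin m ⊕ Fin n)) (y : Fin n → EuclideanSpace ℂ (Fin m ⊕ Fin n)),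
      (∀ i, ‖x i‖ = 1) ∧ (∀ j, ‖y j‖ = 1) ∧ ∀ i j, inner ℂ (x i) (y j) = inner ℂ (u i) (v j) := by
  classical
  let I := Fin m ⊕ Fin n
  let w : I → H := Sum.elim u v
  obtain ⟨B, hB⟩ : ∃ B : Matrix I I ℂ, Matrix.gram ℂ w = Bᴴ * B := by
    open scoped Matrix.Norms.L2Operator MatrixOrder in
    obtain ⟨B, hB⟩ := CStarAlgebra.nonneg_iff_eq_star_mul_self.mp
      (Matrix.posSemidef_gram ℂ w).nonneg
    exact ⟨B, hB⟩
  let z : I → EuclideanSpace ℂ I := fun a => WithLp.toLp 2 (fun k => B k a)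
  have hz : ∀ a b, inner ℂ (z a) (z b) = inner ℂ (w a) (w b) := by
    intro a b
    have h1 := congrFun (congrFun hB a) b
    rw [Matrix.gram_apply] at h1
    rw [h1]
    simp [z, PiLp.inner_apply, Matrix.mul_apply, mul_comm]
  have hn : ∀ a, ‖w a‖ = 1 → ‖z a‖ = 1 := by
    intro a ha
    have h1 := hz a a
    rw [inner_self_eq_norm_sq_to_K, inner_self_eq_norm_sq_to_K, ha] at h1
    have h2 : ‖z a‖ ^ 2 = 1 := by
      have : ((‖z a‖ ^ 2 : ℝ) : ℂ) = ((1 : ℝ) : ℂ) := by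
        push_cast
        simpa using h1
      exact Complex.ofReal_injective this
    have h3 := norm_nonneg (z a)
    nlinarith
  exact ⟨fun i => z (Sum.inl i), fun j => z (Sum.inr j), fun i => hn _ (hu i), fun j => hn _ (hv j),
    fun i j => hz _ _⟩

end Pool.Agent.H809R2.GI
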