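import Pool.Agent.H809R2.GI.CUpper1

set_option autoImplicit false
set_option maxHeartbeats 400000

namespace Pool.Agent.H809R2.GI

open MeasureTheory ProbabilityTheory Complex
open scoped ComplexConjugate RealInnerProductSpace

variable {ι : Type} [Fintype ι]

/-- the Gaussian measure -/
noncomputable abbrev gm (ι : Type) [Fintype ι] : Measure (EuclideanSpace ℂ ι) :=
  stdGaussian (EuclideanSpace ℂ ι)

lemma ae_inner_ne_zero (x : EuclideanSpace ℂ ι) (hx : ‖x‖ = 1) : ∀ᵐ g ∂(gm ι), inner ℂ x g ≠ 0 := by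
  have h1 : ∀ᵐ z ∂(stdGaussian ℂ), z ≠ 0 := by
    rw [stdGaussian_complex, ae_iff]
    apply (withDensity_absolutelyContinuous _ _)
    simp
  rw [← law_inner_complex x hx] at h1
  exact ae_of_ae_map (f := fun g => inner ℂ x g) (p := fun z => z ≠ 0) (by fun_prop) h1

lemma memLp_inner (x : EuclideanSpace ℂ ι) : MemLp (fun g => inner ℂ x g) 2 (gm ι) := by
  have h : MemLp (fun g : EuclideanSpace ℂ ι => g) 2 (gm ι) := IsGaussian.memLp_two_id
  refine MemLp.of_le_mul (c := ‖x‖) h (by fun_prop) (Filter.Eventually.of_forall fun g => ?_)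
  exact norm_inner_le_norm _ _

/-- reflection trick -/
lemma integral_orthogonal (w y : EuclideanSpace ℂ ι) (hwy : inner ℂ y w = 0) (φ : ℂ → ℂ) :
    ∫ g, inner ℂ w g * φ (inner ℂ y g) ∂(gm ι) = 0 := by
  let T : EuclideanSpace ℂ ι ≃ₗᵢ[ℂ] EuclideanSpace ℂ ι := (Submodule.span ℂ {y}).reflection
  have hTy : T y = y :=
    Submodule.reflection_mem_subspace_eq_self (Submodule.mem_span_singleton_self y)
  have hTw : T w = -w := by
    apply Submodule.reflection_mem_subspace_orthogonalComplement_eq_neg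
    rw [Submodule.mem_orthogonal_singleton_iff_inner_right]
    exact hwy
  let T' : EuclideanSpace ℂ ι ≃ₗᵢ[ℝ] EuclideanSpace ℂ ι :=
    ⟨T.toLinearEquiv.restrictScalars ℝ, T.norm_map⟩
  have hmap : (gm ι).map T' = gm ι := stdGaussian_map T'
  have h1 : ∀ g, inner ℂ y (T g) = inner ℂ y g := by
    intro g
    calc inner ℂ y (T g) = inner ℂ (T y) (T g) := by rw [hTy]
      _ = inner ℂ y g := T.inner_map_map _ _
  have h2 : ∀ g, inner ℂ w (T g) = -inner ℂ w g := by
    intro g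
    calc inner ℂ w (T g) = inner ℂ (-(T w)) (T g) := by rw [hTw, neg_neg]
      _ = -inner ℂ w g := by rw [inner_neg_left, T.inner_map_map]
  have h3 : ∫ g, inner ℂ w g * φ (inner ℂ y g) ∂(gm ι) =
      ∫ g, inner ℂ w (T' g) * φ (inner ℂ y (T' g)) ∂(gm ι) := by
    have hme : MeasurableEmbedding T' := T'.toHomeomorph.measurableEmbedding
    conv_lhs => rw [← hmap]
    rw [hme.integral_map]
  have h4 : ∀ g, inner ℂ w (T' g) * φ (inner ℂ y (T' g)) = -(inner ℂ w g * φ (inner ℂ y g)) := by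
    intro g
    change inner ℂ w (T g) * φ (inner ℂ y (T g)) = _
    rw [h1, h2]
    ring
  simp only [h4] at h3
  rw [integral_neg] at h3
  have h5 : (2 : ℂ) * ∫ g, inner ℂ w g * φ (inner ℂ y g) ∂(gm ι) = 0 := by
    linear_combination h3
  simpa using h5

/-- the absolute moments -/
noncomputable def mom (p : ℝ) : ℝ := 2 ^ (p / 2) * Real.Gamma (1 + p / 2)

lemma mom_two : mom 2 = 2 := by
  unfold mom
  norm_num [show (1 : ℝ) + 1 = 2 by norm_num]

lemma mom_nonneg (p : ℝ) (hp : -2 < p) : 0 ≤ mom p := by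
  unfold mom
  have := Real.Gamma_pos_of_pos (show 0 < 1 + p / 2 by linarith)
  positivity

lemma integral_norm_rpow (x : EuclideanSpace ℂ ι) (hx : ‖x‖ = 1) (p : ℝ) (hp : -2 < p) :
    ∫ g, ‖inner ℂ x g‖ ^ p ∂(gm ι) = mom p := integral_norm_inner_complex x hx p hp

/-- `ψ_θ (w) = |w|^(θ-1) w` -/
noncomputable def psi (θ : ℝ) (w : ℂ) : ℂ := ((‖w‖ ^ (θ - 1) : ℝ) : ℂ) * w

lemma norm_psi (θ : ℝ) (w : ℂ) (hw : w ≠ 0) : ‖psi θ w‖ = ‖w‖ ^ θ := by
  unfold psi
  have h0 : 0 < ‖w‖ := norm_pos_iff.mpr hw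
  rw [norm_mul, Complex.norm_real, Real.norm_of_nonneg (by positivity), ← Real.rpow_add_one h0.ne']
  congr 1
  ring

lemma measurable_psi (θ : ℝ) : Measurable (psi θ) := by
  unfold psi
  apply Measurable.mul _ measurable_id
  exact Complex.measurable_ofReal.comp (measurable_norm.pow_const _)

lemma memLp_psi (θ : ℝ) (h0 : 0 < θ) (h1 : θ ≤ 1) (x : EuclideanSpace ℂ ι) (hx : ‖x‖ = 1) :
    MemLp (fun g => psi θ (inner ℂ x g)) 2 (gm ι) := by
  have h11 : MemLp (fun _ : EuclideanSpace ℂ ι => (1 : ℝ)) 2 (gm ι) := memLp_const 1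
  have h12 : MemLp (fun g : EuclideanSpace ℂ ι => ‖inner ℂ x g‖) 2 (gm ι) := (memLp_inner x).norm
  have h : MemLp (fun g : EuclideanSpace ℂ ι => (1 : ℝ) + ‖inner ℂ x g‖) 2 (gm ι) := h11.add h12
  have hm : Measurable (fun g => psi θ (inner ℂ x g)) := (measurable_psi θ).comp (by fun_prop)
  refine MemLp.of_le h hm.aestronglyMeasurable ?_
  filter_upwards [ae_inner_ne_zero x hx] with g hg
  rw [norm_psi θ _ hg, Real.norm_of_nonneg (by positivity)]
  rcases le_total ‖inner ℂ x g‖ 1 with h2 | h2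
  · calc ‖inner ℂ x g‖ ^ θ ≤ 1 := Real.rpow_le_one (norm_nonneg _) h2 h0.le
      _ ≤ 1 + ‖inner ℂ x g‖ := by linarith [norm_nonneg (inner ℂ x g)]
  · calc ‖inner ℂ x g‖ ^ θ ≤ ‖inner ℂ x g‖ ^ (1 : ℝ) := Real.rpow_le_rpow_of_exponent_le h2 h1
      _ = ‖inner ℂ x g‖ := Real.rpow_one _
      _ ≤ 1 + ‖inner ℂ x g‖ := by linarith

lemma integral_inner_mul_psi (θ : ℝ) (h0 : 0 < θ) (h1 : θ ≤ 1) (x y : EuclideanSpace ℂ ι)
    (hy : ‖y‖ = 1) :
    ∫ g, inner ℂ x g * conj (psi θ (inner ℂ y g)) ∂(gm ι) = inner ℂ x y * (mom (1 + θ) : ℝ) := by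
  set w : EuclideanSpace ℂ ι := x - (inner ℂ y x) • y with hw
  have hyw : inner ℂ y w = 0 := by
    rw [hw, inner_sub_right, inner_smul_right, inner_self_eq_norm_sq_to_K, hy]
    simp
  have h2 : ∀ g, inner ℂ x g * conj (psi θ (inner ℂ y g)) =
      inner ℂ w g * conj (psi θ (inner ℂ y g)) +
        inner ℂ x y * (inner ℂ y g * conj (psi θ (inner ℂ y g))) := by
    intro g
    have : inner ℂ x g = inner ℂ w g + inner ℂ x y * inner ℂ y g := by
      rw [hw, inner_sub_left, inner_smul_left, inner_conj_symm]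
      ring
    rw [this]
    ring
  have hpsi := memLp_psi θ h0 h1 y hy
  have hc : MemLp (fun g => conj (psi θ (inner ℂ y g))) 2 (gm ι) := by
    have hm : Measurable (fun g => psi θ (inner ℂ y g)) := (measurable_psi θ).comp (by fun_prop)
    have hm2 : Measurable (fun g => conj (psi θ (inner ℂ y g))) :=
      Complex.continuous_conj.measurable.comp hm
    refine hpsi.of_le hm2.aestronglyMeasurable (Filter.Eventually.of_forall fun g => ?_)
    rw [RCLike.norm_conj]
  have hi1 : Integrable (fun g => inner ℂ w g * conj (psi θ (inner ℂ y g))) (gm ι) :=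
    (memLp_inner w).integrable_mul hc
  have hi2 : Integrable (fun g => inner ℂ y g * conj (psi θ (inner ℂ y g))) (gm ι) :=
    (memLp_inner y).integrable_mul hc
  simp only [h2]
  rw [integral_add hi1 (hi2.const_mul _), integral_orthogonal w y hyw (fun z => conj (psi θ z)),
    zero_add, integral_const_mul]
  congr 1
  rw [← integral_norm_rpow y hy (1 + θ) (by linarith), ← integral_complex_ofReal]
  apply integral_congr_ae
  filter_upwards [ae_inner_ne_zero y hy] with g hg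
  have hp : 0 < ‖inner ℂ y g‖ := norm_pos_iff.mpr hg
  unfold psi
  rw [map_mul, Complex.conj_ofReal]
  have h3 : inner ℂ y g * (((‖inner ℂ y g‖ ^ (θ - 1) : ℝ) : ℂ) * conj (inner ℂ y g)) =
      ((‖inner ℂ y g‖ ^ (θ - 1) : ℝ) : ℂ) * (inner ℂ y g * conj (inner ℂ y g)) := by ring
  rw [h3, Complex.mul_conj, Complex.normSq_eq_norm_sq, ← Complex.ofReal_mul]
  congr 1
  rw [← Real.rpow_natCast, ← Real.rpow_add hp]
  congr 1
  push_cast
  ring

end Pool.Agent.H809R2.GI
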