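import Pool.Agent.H809R2.GI.CUpper2

set_option autoImplicit false
set_option maxHeartbeats 400000

namespace Pool.Agent.H809R2.GI

open MeasureTheory ProbabilityTheory Complex
open scoped ComplexConjugate RealInnerProductSpace

variable {ι : Type} [Fintype ι]

/-- the factor `e^{z log |X|} sgn X` -/
noncomputable def fac (z : ℂ) (w : ℂ) : ℂ := cexp (z * (Real.log ‖w‖ : ℂ)) * sgC w

lemma measurable_fac (z : ℂ) : Measurable (fac z) := by
  unfold fac
  apply Measurable.mul _ measurable_sgC
  apply Complex.measurable_exp.comp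
  apply Measurable.const_mul
  exact Complex.measurable_ofReal.comp (Real.measurable_log.comp measurable_norm)

lemma norm_fac (z w : ℂ) : ‖fac z w‖ = Real.exp (z.re * Real.log ‖w‖) := by
  unfold fac
  rw [norm_mul, norm_sgC, mul_one, Complex.norm_exp]
  simp

lemma fac_real (θ : ℝ) (w : ℂ) (hw : w ≠ 0) : fac (θ : ℂ) w = psi θ w := by
  unfold fac psi sgC
  have h0 : 0 < ‖w‖ := norm_pos_iff.mpr hw
  rw [if_neg hw]
  have h1 : cexp ((θ : ℂ) * (Real.log ‖w‖ : ℂ)) = ((‖w‖ ^ θ : ℝ) : ℂ) := by
    rw [Real.rpow_def_of_pos h0]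
    push_cast
    rw [mul_comm]
  rw [h1, Real.rpow_sub_one h0.ne']
  push_cast
  ring

/-- the logarithm occurring in the strip function -/
noncomputable def LL (x y g : EuclideanSpace ℂ ι) : ℝ :=
  Real.log ‖inner ℂ x g‖ + Real.log ‖inner ℂ y g‖

/-- the sign occurring in the strip function -/
noncomputable def SS (x y g : EuclideanSpace ℂ ι) : ℂ :=
  sgC (inner ℂ x g) * conj (sgC (inner ℂ y g))

lemma measurable_inner_right (x : EuclideanSpace ℂ ι) : Measurable (fun g => inner ℂ x g) := by
  fun_prop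

lemma measurable_LL (x y : EuclideanSpace ℂ ι) : Measurable (LL x y) := by
  unfold LL
  apply Measurable.add
  · exact Real.measurable_log.comp (measurable_norm.comp (measurable_inner_right x))
  · exact Real.measurable_log.comp (measurable_norm.comp (measurable_inner_right y))

lemma measurable_SS (x y : EuclideanSpace ℂ ι) : Measurable (SS x y) := by
  unfold SS
  apply Measurable.mul
  · exact measurable_sgC.comp (measurable_inner_right x)
  · exact Complex.continuous_conj.measurable.comp (measurable_sgC.comp (measurable_inner_right y))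

lemma norm_SS (x y g : EuclideanSpace ℂ ι) : ‖SS x y g‖ = 1 := by
  unfold SS
  rw [norm_mul, RCLike.norm_conj, norm_sgC, norm_sgC, one_mul]

lemma integrable_exp_LL (x y : EuclideanSpace ℂ ι) (hx : ‖x‖ = 1) (hy : ‖y‖ = 1) :
    Integrable (fun g => Real.exp (LL x y g)) (gm ι) := by
  have h1 : MemLp (fun g : EuclideanSpace ℂ ι => ‖inner ℂ x g‖) 2 (gm ι) := (memLp_inner x).norm
  have h2 : MemLp (fun g : EuclideanSpace ℂ ι => ‖inner ℂ y g‖) 2 (gm ι) := (memLp_inner y).norm
  have h : Integrable (fun g => ‖inner ℂ x g‖ * ‖inner ℂ y g‖) (gm ι) := h1.integrable_mul h2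
  refine h.congr ?_
  filter_upwards [ae_inner_ne_zero x hx, ae_inner_ne_zero y hy] with g hg1 hg2
  unfold LL
  rw [Real.exp_add, Real.exp_log (norm_pos_iff.mpr hg1), Real.exp_log (norm_pos_iff.mpr hg2)]

lemma term_eq (x y : EuclideanSpace ℂ ι) (z : ℂ) (g : EuclideanSpace ℂ ι) :
    cexp (z * (LL x y g : ℂ)) * SS x y g =
      fac z (inner ℂ x g) * (cexp (z * (Real.log ‖inner ℂ y g‖ : ℂ)) *
        conj (sgC (inner ℂ y g))) := by
  unfold LL SS fac
  push_cast
  rw [mul_add, Complex.exp_add]
  ring

lemma integral_exp_log_sq (x : EuclideanSpace ℂ ι) (hx : ‖x‖ = 1) :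
    ∫ g, Real.exp (Real.log ‖inner ℂ x g‖) ^ 2 ∂(gm ι) = 2 := by
  have h := integral_norm_rpow x hx 2 (by norm_num)
  rw [mom_two] at h
  rw [← h]
  apply integral_congr_ae
  filter_upwards [ae_inner_ne_zero x hx] with g hg
  rw [Real.exp_log (norm_pos_iff.mpr hg), Real.rpow_two]

section main

variable {m n : ℕ} (A : Matrix (Fin m) (Fin n) ℂ) (x : Fin m → EuclideanSpace ℂ ι)
  (y : Fin n → EuclideanSpace ℂ ι)

/-- the function on the strip -/
noncomputable def FF (z : ℂ) : ℂ :=
  ∑ i, ∑ j, A i j * stripFn (gm ι) (LL (x i) (y j)) (SS (x i) (y j)) z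

variable (hx : ∀ i, ‖x i‖ = 1) (hy : ∀ j, ‖y j‖ = 1)

include hx hy in
lemma FF_diffContOnCl : DiffContOnCl ℂ (FF A x y) (HadamardThreeLines.verticalStrip 0 1) := by
  have h : ∀ i j, DiffContOnCl ℂ (stripFn (gm ι) (LL (x i) (y j)) (SS (x i) (y j)))
      (HadamardThreeLines.verticalStrip 0 1) := fun i j =>
    stripFn_diffContOnCl (gm ι) _ _ (measurable_LL _ _) (measurable_SS _ _) (norm_SS _ _)
      (integrable_exp_LL _ _ (hx i) (hy j))
  constructor
  · unfold FF
    apply DifferentiableOn.fun_sum
    intro i _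
    apply DifferentiableOn.fun_sum
    intro j _
    exact (h i j).1.const_mul _
  · unfold FF
    apply continuousOn_finsetSum
    intro i _
    apply continuousOn_finsetSum
    intro j _
    exact continuousOn_const.mul (h i j).2

include hx hy in
lemma FF_bdd : BddAbove ((norm ∘ FF A x y) '' HadamardThreeLines.verticalClosedStrip 0 1) := by
  refine ⟨∑ i, ∑ j, ‖A i j‖ * ∫ g, (1 + Real.exp (LL (x i) (y j) g)) ∂(gm ι), ?_⟩
  rintro r ⟨z, hz, rfl⟩
  simp only [Function.comp_apply]
  unfold FF
  refine (norm_sum_le _ _).trans (Finset.sum_le_sum fun i _ => ?_)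
  refine (norm_sum_le _ _).trans (Finset.sum_le_sum fun j _ => ?_)
  rw [norm_mul]
  apply mul_le_mul_of_nonneg_left _ (norm_nonneg _)
  exact stripFn_bound (gm ι) _ _ (measurable_LL _ _) (measurable_SS _ _) (norm_SS _ _)
    (integrable_exp_LL _ _ (hx i) (hy j)) z hz

lemma FF_left (z : ℂ) (hz : z.re = 0) : ‖FF A x y z‖ ≤ signNorm A := by
  have h := integral_le_signNorm (gm ι) A (fun i g => fac z (inner ℂ (x i) g))
    (fun j g => cexp (z * (Real.log ‖inner ℂ (y j) g‖ : ℂ)) * conj (sgC (inner ℂ (y j) g)))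
    (fun i g => by rw [norm_fac, hz]; simp)
    (fun j g => by
      rw [norm_mul, RCLike.norm_conj, norm_sgC, Complex.norm_exp]
      simp [hz])
    (fun i => ((measurable_fac z).comp (measurable_inner_right (x i))).aestronglyMeasurable)
    (fun j => by
      apply Measurable.aestronglyMeasurable
      apply Measurable.mul
      · apply Complex.measurable_exp.comp
        apply Measurable.const_mul
        exact Complex.measurable_ofReal.comp
          (Real.measurable_log.comp (measurable_norm.comp (measurable_inner_right (y j))))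
      · exact Complex.continuous_conj.measurable.comp
          (measurable_sgC.comp (measurable_inner_right (y j))))
  refine le_trans (le_of_eq ?_) h
  unfold FF stripFn
  simp only [term_eq]

include hx hy in
lemma FF_right {C : ℝ} (hC : HB A C) (z : ℂ) (hz : z.re = 1) : ‖FF A x y z‖ ≤ C * 2 := by
  have hmem : ∀ w : EuclideanSpace ℂ ι, ‖w‖ = 1 → ∀ f : EuclideanSpace ℂ ι → ℂ, Measurable f →
      (∀ g, ‖f g‖ = Real.exp (Real.log ‖inner ℂ w g‖)) → MemLp f 2 (gm ι) := by
    intro w hw f hf hfn
    refine (memLp_inner w).of_le hf.aestronglyMeasurable ?_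
    filter_upwards [ae_inner_ne_zero w hw] with g hg
    rw [hfn, Real.exp_log (norm_pos_iff.mpr hg)]
  have hn1 : ∀ i g, ‖conj (fac z (inner ℂ (x i) g))‖ = Real.exp (Real.log ‖inner ℂ (x i) g‖) := by
    intro i g
    rw [RCLike.norm_conj, norm_fac, hz, one_mul]
  have hn2 : ∀ j g, ‖cexp (z * (Real.log ‖inner ℂ (y j) g‖ : ℂ)) *
      conj (sgC (inner ℂ (y j) g))‖ = Real.exp (Real.log ‖inner ℂ (y j) g‖) := by
    intro j g
    rw [norm_mul, RCLike.norm_conj, norm_sgC, Complex.norm_exp, mul_one]
    simp [hz]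
  have h := hC.L2 (gm ι) (fun i g => conj (fac z (inner ℂ (x i) g)))
    (fun j g => cexp (z * (Real.log ‖inner ℂ (y j) g‖ : ℂ)) * conj (sgC (inner ℂ (y j) g)))
    (fun i => hmem (x i) (hx i) _ (Complex.continuous_conj.measurable.comp
      ((measurable_fac z).comp (measurable_inner_right (x i)))) (hn1 i))
    (fun j => hmem (y j) (hy j) _ (by
      apply Measurable.mul
      · apply Complex.measurable_exp.comp
        apply Measurable.const_mul
        exact Complex.measurable_ofReal.comp
          (Real.measurable_log.comp (measurable_norm.comp (measurable_inner_right (y j))))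
      · exact Complex.continuous_conj.measurable.comp
          (measurable_sgC.comp (measurable_inner_right (y j)))) (hn2 j)) 2 (by norm_num)
    (fun i => by
      simp only [hn1]
      exact integral_exp_log_sq _ (hx i))
    (fun j => by
      simp only [hn2]
      exact integral_exp_log_sq _ (hy j))
  refine le_trans (le_of_eq ?_) h
  unfold FF stripFn
  simp only [term_eq, Complex.conj_conj]

include hx hy in
lemma FF_interp {C : ℝ} (hC : HB A C) (θ : ℝ) (h0 : 0 ≤ θ) (h1 : θ ≤ 1) :
    ‖FF A x y (θ : ℂ)‖ ≤ signNorm A ^ (1 - θ) * (C * 2) ^ θ := by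
  have h := HadamardThreeLines.norm_le_interp_of_mem_verticalClosedStrip₀₁' (FF A x y)
    (z := (θ : ℂ)) (a := signNorm A) (b := C * 2) (by
      simp only [HadamardThreeLines.verticalClosedStrip, Set.mem_preimage, Complex.ofReal_re,
        Set.mem_Icc]
      exact ⟨h0, h1⟩)
    (FF_diffContOnCl A x y hx hy) (FF_bdd A x y hx hy)
    (fun z hz => FF_left A x y z (by simpa using hz))
    (fun z hz => FF_right A x y hx hy hC z (by simpa using hz))
  simpa using h

include hx hy in
lemma FF_real (θ : ℝ) : FF A x y (θ : ℂ) = ∑ i, ∑ j, A i j *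
    ∫ g, psi θ (inner ℂ (x i) g) * conj (psi θ (inner ℂ (y j) g)) ∂(gm ι) := by
  unfold FF stripFn
  apply Finset.sum_congr rfl
  intro i _
  apply Finset.sum_congr rfl
  intro j _
  congr 1
  apply integral_congr_ae
  filter_upwards [ae_inner_ne_zero (x i) (hx i), ae_inner_ne_zero (y j) (hy j)] with g hg1 hg2
  rw [term_eq, fac_real θ _ hg1]
  congr 1
  rw [← fac_real θ _ hg2]
  unfold fac
  rw [map_mul, ← Complex.exp_conj, map_mul, Complex.conj_ofReal, Complex.conj_ofReal]

end main

end Pool.Agent.H809R2.GI
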