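import Pool.Agent.H809R2.GI.CUpper3

set_option autoImplicit false
set_option maxHeartbeats 400000

namespace Pool.Agent.H809R2.GI

open MeasureTheory ProbabilityTheory Complex
open scoped ComplexConjugate RealInnerProductSpace

variable {ι : Type} [Fintype ι]

lemma psi_one (w : ℂ) : psi 1 w = w := by
  unfold psi
  simp

lemma integral_psi_mul_inner (θ : ℝ) (h0 : 0 < θ) (h1 : θ ≤ 1) (x y : EuclideanSpace ℂ ι)
    (hx : ‖x‖ = 1) :
    ∫ g, psi θ (inner ℂ x g) * conj (inner ℂ y g) ∂(gm ι) = inner ℂ x y * (mom (1 + θ) : ℝ) := by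
  have h := integral_inner_mul_psi θ h0 h1 y x hx
  have h2 : ∫ g, psi θ (inner ℂ x g) * conj (inner ℂ y g) ∂(gm ι) =
      conj (∫ g, inner ℂ y g * conj (psi θ (inner ℂ x g)) ∂(gm ι)) := by
    rw [← integral_conj]
    congr 1
    ext g
    rw [map_mul, Complex.conj_conj]
    ring
  rw [h2, h, map_mul, Complex.conj_ofReal, inner_conj_symm]

lemma integral_inner_mul_inner (x y : EuclideanSpace ℂ ι) (hy : ‖y‖ = 1) :
    ∫ g, inner ℂ x g * conj (inner ℂ y g) ∂(gm ι) = inner ℂ x y * 2 := by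
  have h := integral_inner_mul_psi 1 (by norm_num) le_rfl x y hy
  simp only [psi_one] at h
  rw [h, show (1 : ℝ) + 1 = 2 by norm_num, mom_two]
  norm_num

lemma integral_psi_self (θ : ℝ) (h0 : 0 < θ) (x : EuclideanSpace ℂ ι)
    (hx : ‖x‖ = 1) :
    ∫ g, psi θ (inner ℂ x g) * conj (psi θ (inner ℂ x g)) ∂(gm ι) = (mom (2 * θ) : ℝ) := by
  rw [← integral_norm_rpow x hx (2 * θ) (by linarith), ← integral_complex_ofReal]
  apply integral_congr_ae
  filter_upwards [ae_inner_ne_zero x hx] with g hg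
  rw [Complex.mul_conj, Complex.normSq_eq_norm_sq, norm_psi θ _ hg]
  congr 1
  rw [← Real.rpow_natCast, ← Real.rpow_mul (norm_nonneg _)]
  congr 1
  push_cast
  ring

/-- the remainder -/
noncomputable def rem (θ : ℝ) (w : ℂ) : ℂ := psi θ w - ((mom (1 + θ) / 2 : ℝ) : ℂ) * w

lemma memLp_rem (θ : ℝ) (h0 : 0 < θ) (h1 : θ ≤ 1) (x : EuclideanSpace ℂ ι) (hx : ‖x‖ = 1) :
    MemLp (fun g => rem θ (inner ℂ x g)) 2 (gm ι) := by
  unfold rem
  exact (memLp_psi θ h0 h1 x hx).sub ((memLp_inner x).const_mul _)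

lemma memLp_conj {f : EuclideanSpace ℂ ι → ℂ} (hf : MemLp f 2 (gm ι)) :
    MemLp (fun g => conj (f g)) 2 (gm ι) := by
  refine hf.of_le ?_ (Filter.Eventually.of_forall fun g => ?_)
  · exact Complex.continuous_conj.comp_aestronglyMeasurable hf.1
  · rw [RCLike.norm_conj]

lemma int4 {f1 f2 f3 f4 : EuclideanSpace ℂ ι → ℂ} (i1 : Integrable f1 (gm ι))
    (i2 : Integrable f2 (gm ι)) (i3 : Integrable f3 (gm ι)) (i4 : Integrable f4 (gm ι))
    (k1 k2 k3 : ℂ) :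
    ∫ g, (f1 g - k1 * f2 g - k2 * f3 g + k3 * f4 g) ∂(gm ι) =
      ∫ g, f1 g ∂(gm ι) - k1 * ∫ g, f2 g ∂(gm ι) - k2 * ∫ g, f3 g ∂(gm ι) +
        k3 * ∫ g, f4 g ∂(gm ι) := by
  have j2 : Integrable (fun g => k1 * f2 g) (gm ι) := i2.const_mul k1
  have j3 : Integrable (fun g => k2 * f3 g) (gm ι) := i3.const_mul k2
  have j4 : Integrable (fun g => k3 * f4 g) (gm ι) := i4.const_mul k3
  have j12 : Integrable (fun g => f1 g - k1 * f2 g) (gm ι) := i1.sub j2
  have j123 : Integrable (fun g => f1 g - k1 * f2 g - k2 * f3 g) (gm ι) := j12.sub j3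
  rw [integral_add j123 j4, integral_sub j12 j3, integral_sub i1 j2, integral_const_mul,
    integral_const_mul, integral_const_mul]

lemma integral_rem (θ : ℝ) (h0 : 0 < θ) (h1 : θ ≤ 1) (x y : EuclideanSpace ℂ ι) (hx : ‖x‖ = 1)
    (hy : ‖y‖ = 1) :
    ∫ g, rem θ (inner ℂ x g) * conj (rem θ (inner ℂ y g)) ∂(gm ι) =
      ∫ g, psi θ (inner ℂ x g) * conj (psi θ (inner ℂ y g)) ∂(gm ι) -
        ((mom (1 + θ) ^ 2 / 2 : ℝ) : ℂ) * inner ℂ x y := by
  set κ : ℂ := ((mom (1 + θ) / 2 : ℝ) : ℂ) with hκ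
  have hκc : conj κ = κ := Complex.conj_ofReal _
  have e : ∀ g, rem θ (inner ℂ x g) * conj (rem θ (inner ℂ y g)) =
      psi θ (inner ℂ x g) * conj (psi θ (inner ℂ y g)) -
      κ * (psi θ (inner ℂ x g) * conj (inner ℂ y g)) -
      κ * (inner ℂ x g * conj (psi θ (inner ℂ y g))) +
      κ ^ 2 * (inner ℂ x g * conj (inner ℂ y g)) := by
    intro g
    unfold rem
    rw [← hκ, map_sub, map_mul, hκc]
    ring
  have px := memLp_psi θ h0 h1 x hx
  have py := memLp_conj (memLp_psi θ h0 h1 y hy)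
  have ix := memLp_inner x
  have iy := memLp_conj (memLp_inner y)
  have i1 : Integrable (fun g => psi θ (inner ℂ x g) * conj (psi θ (inner ℂ y g))) (gm ι) :=
    px.integrable_mul py
  have i2 : Integrable (fun g => psi θ (inner ℂ x g) * conj (inner ℂ y g)) (gm ι) :=
    px.integrable_mul iy
  have i3 : Integrable (fun g => inner ℂ x g * conj (psi θ (inner ℂ y g))) (gm ι) :=
    ix.integrable_mul py
  have i4 : Integrable (fun g => inner ℂ x g * conj (inner ℂ y g)) (gm ι) :=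
    ix.integrable_mul iy
  simp only [e]
  rw [int4 i1 i2 i3 i4 κ κ (κ ^ 2), integral_psi_mul_inner θ h0 h1 x y hx, integral_inner_mul_psi θ h0 h1 x y hy,
    integral_inner_mul_inner x y hy, hκ]
  push_cast
  ring

lemma integral_norm_rem_sq (θ : ℝ) (h0 : 0 < θ) (h1 : θ ≤ 1) (x : EuclideanSpace ℂ ι)
    (hx : ‖x‖ = 1) :
    ∫ g, ‖rem θ (inner ℂ x g)‖ ^ 2 ∂(gm ι) = mom (2 * θ) - mom (1 + θ) ^ 2 / 2 := by
  have h := integral_rem θ h0 h1 x x hx hx
  rw [integral_psi_self θ h0 x hx, inner_self_eq_norm_sq_to_K, hx] at h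
  have h2 : ∫ g, rem θ (inner ℂ x g) * conj (rem θ (inner ℂ x g)) ∂(gm ι) =
      ((∫ g, ‖rem θ (inner ℂ x g)‖ ^ 2 ∂(gm ι) : ℝ) : ℂ) := by
    rw [← integral_complex_ofReal]
    congr 1
    ext g
    rw [Complex.mul_conj, Complex.normSq_eq_norm_sq]
  rw [h2] at h
  apply Complex.ofReal_injective
  rw [h]
  push_cast
  simp

lemma key_ineq {m n : ℕ} (A : Matrix (Fin m) (Fin n) ℂ) {C : ℝ} (hC : HB A C) (θ : ℝ)
    (h0 : 0 < θ) (h1 : θ ≤ 1) :
    HB A ((signNorm A ^ (1 - θ) * (C * 2) ^ θ + C * (mom (2 * θ) - mom (1 + θ) ^ 2 / 2)) /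
      (mom (1 + θ) ^ 2 / 2)) := by
  intro H _ _ u v hu hv
  obtain ⟨x, y, hx, hy, hxy⟩ := gram_transfer u v hu hv
  have hmpos : 0 < mom (1 + θ) := by
    unfold mom
    have := Real.Gamma_pos_of_pos (show 0 < 1 + (1 + θ) / 2 by linarith)
    positivity
  have hI := FF_interp A x y hx hy hC θ h0.le h1
  rw [FF_real A x y hx hy θ] at hI
  have hsum : ∑ i, ∑ j, A i j *
      ∫ g, psi θ (inner ℂ (x i) g) * conj (psi θ (inner ℂ (y j) g)) ∂(gm (Fin m ⊕ Fin n)) =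
      (∑ i, ∑ j, A i j *
        ∫ g, rem θ (inner ℂ (x i) g) * conj (rem θ (inner ℂ (y j) g)) ∂(gm (Fin m ⊕ Fin n))) +
      ((mom (1 + θ) ^ 2 / 2 : ℝ) : ℂ) * ∑ i, ∑ j, A i j * inner ℂ (x i) (y j) := by
    rw [Finset.mul_sum, ← Finset.sum_add_distrib]
    apply Finset.sum_congr rfl
    intro i _
    rw [Finset.mul_sum, ← Finset.sum_add_distrib]
    apply Finset.sum_congr rfl
    intro j _
    rw [integral_rem θ h0 h1 (x i) (y j) (hx i) (hy j)]
    ring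
  -- an auxiliary unit vector gives nonnegativity of the remainder variance
  have hρ : 0 ≤ mom (2 * θ) - mom (1 + θ) ^ 2 / 2 := by
    have h := integral_norm_rem_sq (ι := Fin 1) θ h0 h1 (EuclideanSpace.single 0 1) (by simp)
    rw [← h]
    exact integral_nonneg fun g => by positivity
  have hR := hC.L2 (gm (Fin m ⊕ Fin n)) (fun i g => conj (rem θ (inner ℂ (x i) g)))
    (fun j g => conj (rem θ (inner ℂ (y j) g))) (fun i => memLp_conj (memLp_rem θ h0 h1 _ (hx i)))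
    (fun j => memLp_conj (memLp_rem θ h0 h1 _ (hy j))) _ hρ
    (fun i => by simp only [RCLike.norm_conj]; exact integral_norm_rem_sq θ h0 h1 _ (hx i))
    (fun j => by simp only [RCLike.norm_conj]; exact integral_norm_rem_sq θ h0 h1 _ (hy j))
  simp only [Complex.conj_conj] at hR
  rw [hsum] at hI
  simp only [← hxy]
  rw [le_div_iff₀ (by positivity)]
  set T := ∑ i, ∑ j, A i j * inner ℂ (x i) (y j) with hT
  set R := ∑ i, ∑ j, A i j *
        ∫ g, rem θ (inner ℂ (x i) g) * conj (rem θ (inner ℂ (y j) g)) ∂(gm (Fin m ⊕ Fin n)) with hRdef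
  have h3 : ‖((mom (1 + θ) ^ 2 / 2 : ℝ) : ℂ) * T‖ = (mom (1 + θ) ^ 2 / 2) * ‖T‖ := by
    rw [norm_mul, Complex.norm_real, Real.norm_of_nonneg (by positivity)]
  have h4 : ‖((mom (1 + θ) ^ 2 / 2 : ℝ) : ℂ) * T‖ ≤
      ‖R + ((mom (1 + θ) ^ 2 / 2 : ℝ) : ℂ) * T‖ + ‖R‖ := by
    have : ((mom (1 + θ) ^ 2 / 2 : ℝ) : ℂ) * T =
      (R + ((mom (1 + θ) ^ 2 / 2 : ℝ) : ℂ) * T) - R := by ring
    calc ‖((mom (1 + θ) ^ 2 / 2 : ℝ) : ℂ) * T‖ =
        ‖(R + ((mom (1 + θ) ^ 2 / 2 : ℝ) : ℂ) * T) - R‖ := by rw [← this]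
      _ ≤ _ := norm_sub_le _ _
  rw [mul_comm ‖T‖, ← h3]
  linarith

/-- the best constant for the form `A` -/
noncomputable def K0 {m n : ℕ} (A : Matrix (Fin m) (Fin n) ℂ) : ℝ := sInf {C : ℝ | HB A C}

lemma HB_nonempty {m n : ℕ} (A : Matrix (Fin m) (Fin n) ℂ) : {C : ℝ | HB A C}.Nonempty := by
  refine ⟨∑ i, ∑ j, ‖A i j‖, ?_⟩
  intro H _ _ u v hu hv
  refine (norm_sum_le _ _).trans (Finset.sum_le_sum fun i _ => ?_)
  refine (norm_sum_le _ _).trans (Finset.sum_le_sum fun j _ => ?_)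
  rw [norm_mul]
  refine mul_le_of_le_one_right (norm_nonneg _) ?_
  refine (norm_inner_le_norm _ _).trans ?_
  rw [hu, hv, mul_one]

lemma HB_K0 {m n : ℕ} (A : Matrix (Fin m) (Fin n) ℂ) : HB A (K0 A) := by
  intro H _ _ u v hu hv
  apply le_csInf (HB_nonempty A)
  intro C hC
  exact hC H u v hu hv

lemma K0_le {m n : ℕ} {A : Matrix (Fin m) (Fin n) ℂ} {C : ℝ} (hC : HB A C) : K0 A ≤ C :=
  csInf_le ⟨0, fun _ h => h.nonneg⟩ hC

/-- `h (θ) = 2 Γ((3+θ)/2)² - Γ(1+θ)` -/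
noncomputable def hh (θ : ℝ) : ℝ := 2 * Real.Gamma ((3 + θ) / 2) ^ 2 - Real.Gamma (1 + θ)

lemma hh_ineq {m n : ℕ} (A : Matrix (Fin m) (Fin n) ℂ) (θ : ℝ) (h0 : 0 < θ) (h1 : θ ≤ 1) :
    K0 A * hh θ ≤ signNorm A ^ (1 - θ) * K0 A ^ θ := by
  have h := K0_le (key_ineq A (HB_K0 A) θ h0 h1)
  have hK : 0 ≤ K0 A := (HB_K0 A).nonneg
  have hmpos : 0 < mom (1 + θ) := by
    unfold mom
    have := Real.Gamma_pos_of_pos (show 0 < 1 + (1 + θ) / 2 by linarith)
    positivity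
  rw [le_div_iff₀ (by positivity)] at h
  have h2 : K0 A * (mom (1 + θ) ^ 2 - mom (2 * θ)) ≤ signNorm A ^ (1 - θ) * (K0 A * 2) ^ θ := by
    linarith
  have h3 : mom (1 + θ) ^ 2 - mom (2 * θ) = 2 ^ θ * hh θ := by
    unfold mom hh
    have e1 : (1 : ℝ) + (1 + θ) / 2 = (3 + θ) / 2 := by ring
    have e2 : (1 : ℝ) + 2 * θ / 2 = 1 + θ := by ring
    have e3 : ((2 : ℝ) ^ ((1 + θ) / 2)) ^ 2 = 2 * 2 ^ θ := by
      rw [← Real.rpow_natCast, ← Real.rpow_mul (by norm_num)]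
      rw [show (1 + θ) / 2 * ((2 : ℕ) : ℝ) = 1 + θ by push_cast; ring,
        Real.rpow_add (by norm_num), Real.rpow_one]
    have e4 : (2 : ℝ) * θ / 2 = θ := by ring
    rw [e1, e2, mul_pow, e3, e4]
    ring
  rw [h3, Real.mul_rpow hK (by norm_num)] at h2
  have h4 : (0 : ℝ) < 2 ^ θ := by positivity
  have h5 : 2 ^ θ * (K0 A * hh θ) ≤ 2 ^ θ * (signNorm A ^ (1 - θ) * K0 A ^ θ) := by
    calc 2 ^ θ * (K0 A * hh θ) = K0 A * (2 ^ θ * hh θ) := by ring
      _ ≤ _ := h2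
      _ = _ := by ring
  exact le_of_mul_le_mul_left h5 h4

lemma hh_one : hh 1 = 1 := by
  unfold hh
  norm_num [Real.Gamma_two, show (1 : ℝ) + 1 = 2 by norm_num]

lemma hasDerivAt_Gamma_two : HasDerivAt Real.Gamma (1 - Real.eulerMascheroniConstant) 2 := by
  have h := Real.hasDerivAt_Gamma_nat 1
  norm_num at h
  have h2 : (-Real.eulerMascheroniConstant + 1 : ℝ) = 1 - Real.eulerMascheroniConstant := by ring
  rw [h2] at h
  exact h

lemma hasDerivAt_hh : HasDerivAt hh (1 - Real.eulerMascheroniConstant) 1 := by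
  have h1 : HasDerivAt (fun θ : ℝ => Real.Gamma ((3 + θ) / 2))
      ((1 - Real.eulerMascheroniConstant) * (1 / 2)) 1 := by
    have h2 : HasDerivAt (fun θ : ℝ => (3 + θ) / 2) (1 / 2) 1 := by
      simpa using ((hasDerivAt_id (1 : ℝ)).const_add 3).div_const 2
    have h3 : HasDerivAt Real.Gamma (1 - Real.eulerMascheroniConstant) ((3 + 1) / 2) := by
      rw [show ((3 : ℝ) + 1) / 2 = 2 by norm_num]
      exact hasDerivAt_Gamma_two
    exact h3.comp (1 : ℝ) h2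
  have h4 : HasDerivAt (fun θ : ℝ => Real.Gamma (1 + θ))
      ((1 - Real.eulerMascheroniConstant) * 1) 1 := by
    have h2 : HasDerivAt (fun θ : ℝ => 1 + θ) 1 1 := by
      simpa using (hasDerivAt_id (1 : ℝ)).const_add 1
    have h3 : HasDerivAt Real.Gamma (1 - Real.eulerMascheroniConstant) (1 + 1) := by
      rw [show (1 : ℝ) + 1 = 2 by norm_num]
      exact hasDerivAt_Gamma_two
    exact h3.comp (1 : ℝ) h2
  have h5 := ((h1.pow 2).const_mul 2).sub h4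
  refine (h5.congr_deriv ?_)
  norm_num [Real.Gamma_two]
  ring

open Filter Topology in
theorem K0_le_exp {m n : ℕ} (A : Matrix (Fin m) (Fin n) ℂ) :
    K0 A ≤ Real.exp (1 - Real.eulerMascheroniConstant) * signNorm A := by
  have hK : 0 ≤ K0 A := (HB_K0 A).nonneg
  have hs := signNorm_nonneg A
  rcases hK.eq_or_lt with hK0 | hK0
  · rw [← hK0]; positivity
  -- `h > 0` near `1`
  have hcont : Tendsto hh (𝓝[<] 1) (𝓝 1) := by
    have := hasDerivAt_hh.continuousAt.tendsto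
    rw [hh_one] at this
    exact this.mono_left nhdsWithin_le_nhds
  have hev : ∀ᶠ θ in 𝓝[<] (1 : ℝ), 0 < hh θ := hcont.eventually (lt_mem_nhds one_pos)
  have hev2 : ∀ᶠ θ in 𝓝[<] (1 : ℝ), 0 < θ :=
    Filter.Eventually.filter_mono nhdsWithin_le_nhds (lt_mem_nhds one_pos)
  rcases hs.eq_or_lt with hs0 | hs0
  · exfalso
    obtain ⟨θ, ⟨hθ1, hθ2⟩, hθ3⟩ := ((hev.and hev2).and self_mem_nhdsWithin).exists
    have hθ3' : θ < 1 := hθ3
    have h := hh_ineq A θ hθ2 hθ3'.le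
    rw [← hs0, Real.zero_rpow (by linarith), zero_mul] at h
    have : 0 < K0 A * hh θ := mul_pos hK0 hθ1
    linarith
  -- logarithmic form
  have hlog : ∀ᶠ θ in 𝓝[<] (1 : ℝ), Real.log (K0 A / signNorm A) ≤
      (θ - 1)⁻¹ * (Real.log (hh θ) - Real.log (hh 1)) := by
    filter_upwards [hev, hev2, self_mem_nhdsWithin] with θ hθ1 hθ2 hθ3
    have hθ3' : θ < 1 := hθ3
    have h := hh_ineq A θ hθ2 hθ3'.le
    have h2 := Real.log_le_log (mul_pos hK0 hθ1) h
    rw [Real.log_mul hK0.ne' hθ1.ne', Real.log_mul (by positivity) (by positivity),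
      Real.log_rpow hs0, Real.log_rpow hK0] at h2
    rw [hh_one, Real.log_one, sub_zero, Real.log_div hK0.ne' hs0.ne']
    have h3 : 0 < 1 - θ := by linarith
    have h4 : (θ - 1)⁻¹ * Real.log (hh θ) = -Real.log (hh θ) / (1 - θ) := by
      rw [show θ - 1 = -(1 - θ) by ring, inv_neg]
      field_simp
    rw [h4, le_div_iff₀ h3]
    nlinarith
  have hder : HasDerivAt (fun θ => Real.log (hh θ))
      ((1 - Real.eulerMascheroniConstant) / hh 1) 1 :=
    hasDerivAt_hh.log (by rw [hh_one]; norm_num)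
  rw [hh_one, div_one] at hder
  have hslope := hder.tendsto_slope.mono_left
    (nhdsWithin_mono (1 : ℝ) (fun θ (h : θ < 1) => h.ne) : 𝓝[<] (1 : ℝ) ≤ 𝓝[≠] 1)
  have hfin : Real.log (K0 A / signNorm A) ≤ 1 - Real.eulerMascheroniConstant := by
    refine ge_of_tendsto hslope ?_
    filter_upwards [hlog] with θ hθ
    rw [slope_def_module]
    simpa using hθ
  have h5 := Real.exp_le_exp.mpr hfin
  rw [Real.exp_log (by positivity), div_le_iff₀ hs0] at h5
  exact h5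

theorem pisier : IsGrothendieckBound ℂ (Real.exp (1 - Real.eulerMascheroniConstant)) := by
  refine ⟨Real.exp_pos _, ?_⟩
  intro m n A H _ _ _ u v hu hv
  exact (HB_K0 A H u v hu hv).trans (K0_le_exp A)

end Pool.Agent.H809R2.GI
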