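import Mathlib

/-!
# Grothendieck's inequality and correlation matrices: definitions
-/

set_option autoImplicit false

namespace Pool.Agent.H809R2.GI

open Matrix
open scoped ComplexOrder

/-- The supremum of `|∑ a_ij p_i q_j|` over all unimodular scalars `p_i, q_j`. -/
noncomputable def signNorm {𝕜 : Type} [RCLike 𝕜] {m n : ℕ} (A : Matrix (Fin m) (Fin n) 𝕜) : ℝ :=
  sSup {r : ℝ | ∃ (p : Fin m → 𝕜) (q : Fin n → 𝕜), (∀ i, ‖p i‖ = 1) ∧ (∀ j, ‖q j‖ = 1) ∧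
    r = ‖∑ i, ∑ j, A i j * p i * q j‖}

/-- `K > 0` is a constant for which Grothendieck's inequality over `𝕜` holds. -/
def IsGrothendieckBound (𝕜 : Type) [RCLike 𝕜] (K : ℝ) : Prop :=
  0 < K ∧ ∀ (m n : ℕ) (A : Matrix (Fin m) (Fin n) 𝕜) (H : Type) [NormedAddCommGroup H]
    [InnerProductSpace 𝕜 H] [CompleteSpace H] (u : Fin m → H) (v : Fin n → H),
    (∀ i, ‖u i‖ = 1) → (∀ j, ‖v j‖ = 1) →
      ‖∑ i, ∑ j, A i j * inner 𝕜 (u i) (v j)‖ ≤ K * signNorm A

/-- The Grothendieck constant of the field `𝕜` (`ℝ` or `ℂ`): the smallest `K > 0` for which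
Grothendieck's inequality over `𝕜` holds (see `isLeast_KG` for the attainment). -/
noncomputable def KG (𝕜 : Type) [RCLike 𝕜] : ℝ := sInf {K : ℝ | IsGrothendieckBound 𝕜 K}

/-- `S` is a `k × k` correlation matrix over `𝕜`: positive semidefinite with unit diagonal. -/
def IsCorrelation {𝕜 : Type} [RCLike 𝕜] {k : ℕ} (S : Matrix (Fin k) (Fin k) 𝕜) : Prop :=
  S.PosSemidef ∧ ∀ i, S i i = 1

/-- `max |tr (B^* Θ)|` over the correlation matrices `Θ` of rank one, that is over the matrices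
`Θ = x x^*` with `|x_i| = 1` for all `i`. -/
noncomputable def rankOneMax {𝕜 : Type} [RCLike 𝕜] {k : ℕ} (B : Matrix (Fin k) (Fin k) 𝕜) : ℝ :=
  sSup {r : ℝ | ∃ x : Fin k → 𝕜, (∀ i, ‖x i‖ = 1) ∧
    r = ‖(Bᴴ * Matrix.vecMulVec x (star x)).trace‖}

/-- The inequality of the question: `|tr (B^* S)| ≤ K_G max |tr (B^* Θ)|` for all `k`, all
`k × k` correlation matrices `S` and all `k × k` matrices `B`. -/
def CorrelationGrothendieck (𝕜 : Type) [RCLike 𝕜] : Prop :=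
  ∀ (k : ℕ) (S B : Matrix (Fin k) (Fin k) 𝕜), IsCorrelation S →
    ‖(Bᴴ * S).trace‖ ≤ KG 𝕜 * rankOneMax B

end Pool.Agent.H809R2.GI
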