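import Pool.Agent.H809R2.GI.CUpper4

set_option autoImplicit false
set_option maxHeartbeats 400000

namespace Pool.Agent.H809R2.GI

open MeasureTheory ProbabilityTheory

/-! ### Numerical bounds -/

lemma arsinh_one_ge : 3 / 4 ≤ Real.arsinh 1 := by
  rw [Real.arsinh, Real.le_log_iff_exp_le (by positivity)]
  have h1 : Real.exp (3 / 4) ^ 4 = Real.exp 1 ^ 3 := by
    rw [← Real.exp_nat_mul, ← Real.exp_nat_mul]
    norm_num
  have h2 : Real.exp 1 ^ 3 ≤ (2.7182818286 : ℝ) ^ 3 :=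
    pow_le_pow_left₀ (Real.exp_pos _).le Real.exp_one_lt_d9.le 3
  have h3 : Real.exp (3 / 4) ≤ 2.4 := by
    by_contra hcon
    push Not at hcon
    have h4 : (2.4 : ℝ) ^ 4 < Real.exp (3 / 4) ^ 4 :=
      pow_lt_pow_left₀ hcon (by norm_num) (by norm_num)
    rw [h1] at h4
    norm_num at h2 h4
    linarith
  have h5 : (1.4 : ℝ) ≤ Real.sqrt (1 + 1 ^ 2) := by
    apply Real.le_sqrt_of_sq_le
    norm_num
  linarith

lemma krivine_lt : Real.pi / (2 * Real.arsinh 1) < Real.pi - 1 := by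
  have h := arsinh_one_ge
  have hpi := Real.pi_gt_three
  rw [div_lt_iff₀ (by linarith)]
  nlinarith

lemma gamma_ge : (0.569 : ℝ) ≤ Real.eulerMascheroniConstant := by
  have h := Real.eulerMascheroniSeq_lt_eulerMascheroniConstant 63
  have h2 : Real.eulerMascheroniSeq 63 = (harmonic 63 : ℝ) - Real.log (63 + 1) := by
    simp [Real.eulerMascheroniSeq]
  have h3 : Real.log (63 + 1) = 6 * Real.log 2 := by
    rw [show (63 : ℝ) + 1 = 2 ^ (6 : ℕ) by norm_num, Real.log_pow]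
    norm_num
  have h4 := Real.log_two_lt_d9
  have h5 : (4.728 : ℚ) ≤ harmonic 63 := by
    norm_num [harmonic, Finset.sum_range_succ]
  have h6 : (4.728 : ℝ) ≤ (harmonic 63 : ℝ) := by
    have : ((4.728 : ℚ) : ℝ) ≤ (harmonic 63 : ℝ) := by exact_mod_cast h5
    norm_num at this ⊢
    try exact this
  rw [h2, h3] at h
  norm_num at *
  linarith

lemma pisier_lt : Real.exp (1 - Real.eulerMascheroniConstant) < 8 / Real.pi - 1 := by
  have h1 := gamma_ge
  have h2 : Real.exp (1 - Real.eulerMascheroniConstant) ≤ Real.exp 0.431 :=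
    Real.exp_le_exp.mpr (by norm_num at *; linarith)
  have h3 : Real.exp 0.431 ≤ 1.546 := by
    have h := Real.exp_bound' (x := 0.431) (by norm_num) (by norm_num) (n := 5) (by norm_num)
    refine h.trans ?_
    norm_num [Finset.sum_range_succ, Nat.factorial]
  have h4 : (1.5464 : ℝ) ≤ 8 / Real.pi - 1 := by
    have hpi := Real.pi_lt_d4
    have hpi0 := Real.pi_pos
    rw [le_sub_iff_add_le, le_div_iff₀ hpi0]
    norm_num at *
    linarith
  calc Real.exp (1 - Real.eulerMascheroniConstant) ≤ Real.exp 0.431 := h2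
    _ ≤ 1.546 := h3
    _ < 1.5464 := by norm_num
    _ ≤ _ := h4

/-! ### The Grothendieck constant is attained -/

lemma one_le_of_bound {𝕜 : Type} [RCLike 𝕜] {K : ℝ} (hK : IsGrothendieckBound 𝕜 K) : 1 ≤ K := by
  have h := hK.2 1 1 (fun _ _ => 1) 𝕜 (fun _ => 1) (fun _ => 1) (by simp) (by simp)
  have h2 : signNorm (𝕜 := 𝕜) (m := 1) (n := 1) (fun _ _ => 1) ≤ 1 := by
    unfold signNorm
    apply csSup_le
    · exact ⟨_, fun _ => 1, fun _ => 1, by simp, by simp, rfl⟩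
    · rintro r ⟨p, q, hp, hq, rfl⟩
      simp [hp, hq]
  have h3 : K * signNorm (𝕜 := 𝕜) (m := 1) (n := 1) (fun _ _ => 1) ≤ K * 1 :=
    mul_le_mul_of_nonneg_left h2 hK.1.le
  simp at h
  linarith

theorem isLeast_KG (𝕜 : Type) [RCLike 𝕜] (hne : ∃ K, IsGrothendieckBound 𝕜 K) :
    IsLeast {K : ℝ | IsGrothendieckBound 𝕜 K} (KG 𝕜) := by
  obtain ⟨K₁, hK₁⟩ := hne
  have hne' : {K : ℝ | IsGrothendieckBound 𝕜 K}.Nonempty := ⟨K₁, hK₁⟩
  have hbdd : BddBelow {K : ℝ | IsGrothendieckBound 𝕜 K} :=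
    ⟨1, fun K hK => one_le_of_bound hK⟩
  have h1 : 1 ≤ KG 𝕜 := le_csInf hne' fun K hK => one_le_of_bound hK
  refine ⟨⟨by linarith, ?_⟩, fun K hK => csInf_le hbdd hK⟩
  intro m n A H _ _ _ u v hu hv
  have hs := signNorm_nonneg A
  rcases hs.eq_or_lt with h0 | h0
  · have h2 := hK₁.2 m n A H u v hu hv
    rw [← h0, mul_zero] at h2
    rw [← h0, mul_zero]
    exact h2
  · rw [← div_le_iff₀ h0]
    apply le_csInf hne'
    intro K hK
    rw [div_le_iff₀ h0]
    exact hK.2 m n A H u v hu hv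

/-! ### Sanity: the suprema in the definitions are maxima -/

lemma isCompact_unimodular (𝕜 : Type) [RCLike 𝕜] (ι : Type) [Fintype ι] :
    IsCompact {x : ι → 𝕜 | ∀ i, ‖x i‖ = 1} := by
  have h : {x : ι → 𝕜 | ∀ i, ‖x i‖ = 1} = Set.univ.pi fun _ => Metric.sphere (0 : 𝕜) 1 := by
    ext x
    simp
  rw [h]
  exact isCompact_univ_pi fun _ => isCompact_sphere _ _

/-- Sanity: `rankOneMax B` is the maximum it is meant to be. -/
theorem rankOneMax_isGreatest {𝕜 : Type} [RCLike 𝕜] {k : ℕ} (B : Matrix (Fin k) (Fin k) 𝕜) :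
    IsGreatest {r : ℝ | ∃ x : Fin k → 𝕜, (∀ i, ‖x i‖ = 1) ∧
      r = ‖(B.conjTranspose * Matrix.vecMulVec x (star x)).trace‖} (rankOneMax B) := by
  have hc := isCompact_unimodular 𝕜 (Fin k)
  have hcont : Continuous fun x : Fin k → 𝕜 =>
      ‖(B.conjTranspose * Matrix.vecMulVec x (star x)).trace‖ := by
    simp only [Matrix.trace, Matrix.diag_apply, Matrix.mul_apply, Matrix.vecMulVec_apply,
      Pi.star_apply]
    fun_prop
  have himg : {r : ℝ | ∃ x : Fin k → 𝕜, (∀ i, ‖x i‖ = 1) ∧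
      r = ‖(B.conjTranspose * Matrix.vecMulVec x (star x)).trace‖} =
      (fun x : Fin k → 𝕜 => ‖(B.conjTranspose * Matrix.vecMulVec x (star x)).trace‖) ''
        {x | ∀ i, ‖x i‖ = 1} := by
    ext r
    constructor
    · rintro ⟨x, hx, rfl⟩
      exact ⟨x, hx, rfl⟩
    · rintro ⟨x, hx, rfl⟩
      exact ⟨x, hx, rfl⟩
  unfold rankOneMax
  rw [himg]
  exact (hc.image hcont).isGreatest_sSup ⟨_, fun _ => 1, fun _ => by simp, rfl⟩

theorem main_real : IsLeast {K : ℝ | IsGrothendieckBound ℝ K} (KG ℝ) ∧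
    ¬ CorrelationGrothendieck ℝ := by
  have hleast := isLeast_KG ℝ ⟨_, krivine⟩
  refine ⟨hleast, fun h => ?_⟩
  have h1 : KG ℝ < Real.pi - 1 := lt_of_le_of_lt (hleast.2 krivine) krivine_lt
  obtain ⟨k, S, B, hS, hlt⟩ := real_lower (KG ℝ) hleast.1.1.le h1
  exact absurd (h k S B hS) (not_le.mpr hlt)

theorem main_complex : IsLeast {K : ℝ | IsGrothendieckBound ℂ K} (KG ℂ) ∧
    ¬ CorrelationGrothendieck ℂ := by
  have hleast := isLeast_KG ℂ ⟨_, pisier⟩
  refine ⟨hleast, fun h => ?_⟩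
  have h1 : KG ℂ < 8 / Real.pi - 1 := lt_of_le_of_lt (hleast.2 pisier) pisier_lt
  obtain ⟨k, S, B, hS, hlt⟩ := complex_lower (KG ℂ) hleast.1.1.le h1
  exact absurd (h k S B hS) (not_le.mpr hlt)

end Pool.Agent.H809R2.GI
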