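import Mathlib

set_option autoImplicit false

namespace Pool.Agent.H809R2.GI

open MeasureTheory ProbabilityTheory Complex
open scoped RealInnerProductSpace

/-- the standard Gaussian measure on `ℂ` has density `(2π)⁻¹ exp (-|z|²/2)` -/
lemma stdGaussian_complex : stdGaussian ℂ =
    (volume : Measure ℂ).withDensity
      (fun z => ENNReal.ofReal ((2 * Real.pi)⁻¹ * Real.exp (-(1 / 2) * ‖z‖ ^ 2))) := by
  have hint : Integrable (fun z : ℂ => (2 * Real.pi)⁻¹ * Real.exp (-(1 / 2) * ‖z‖ ^ 2)) := by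
    apply Integrable.const_mul
    have h := GaussianFourier.integrable_cexp_neg_mul_sq_norm_add (V := ℂ) (b := 1 / 2)
      (by norm_num) 0 (0 : ℂ)
    have h2 := h.norm
    refine h2.congr (Filter.Eventually.of_forall fun z => ?_)
    simp only [Complex.norm_exp]
    congr 1
    have : (-(1 / 2 : ℂ) * ((‖z‖ : ℝ) : ℂ) ^ 2 + 0 * ((⟪(0 : ℂ), z⟫ : ℝ) : ℂ)) =
        ((-(1 / 2) * ‖z‖ ^ 2 : ℝ) : ℂ) := by push_cast; ring
    rw [this, Complex.ofReal_re]
  have : IsFiniteMeasure ((volume : Measure ℂ).withDensity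
      (fun z => ENNReal.ofReal ((2 * Real.pi)⁻¹ * Real.exp (-(1 / 2) * ‖z‖ ^ 2)))) := by
    apply isFiniteMeasure_withDensity_ofReal
    exact hint.2
  apply Measure.ext_of_charFun
  ext t
  rw [charFun_stdGaussian, charFun_apply, integral_withDensity_eq_integral_toReal_smul
    (by fun_prop) (Filter.Eventually.of_forall fun _ => ENNReal.ofReal_lt_top)]
  have h := GaussianFourier.integral_cexp_neg_mul_sq_norm_add (V := ℂ) (b := 1 / 2)
    (by norm_num) Complex.I t
  have h1 : ∀ z : ℂ, (ENNReal.ofReal ((2 * Real.pi)⁻¹ * Real.exp (-(1 / 2) * ‖z‖ ^ 2))).toReal •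
      cexp ((⟪z, t⟫ : ℝ) * I) = ((2 * Real.pi)⁻¹ : ℝ) *
        cexp (-(1 / 2) * ((‖z‖ : ℝ) : ℂ) ^ 2 + I * ((⟪t, z⟫ : ℝ) : ℂ)) := by
    intro z
    rw [ENNReal.toReal_ofReal (by positivity), Complex.real_smul, Complex.exp_add,
      real_inner_comm]
    push_cast
    rw [mul_comm I]
    ring
  simp only [h1]
  rw [integral_const_mul, h]
  simp only [Complex.finrank_real_complex]
  have h2 : ((Real.pi : ℂ) / (1 / 2)) ^ (((2 : ℕ) : ℂ) / 2) = 2 * Real.pi := by
    norm_num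
    ring
  rw [h2]
  have hpi : (Real.pi : ℂ) ≠ 0 := by exact_mod_cast Real.pi_ne_zero
  push_cast
  rw [Complex.I_sq]
  rw [← mul_assoc, inv_mul_cancel₀ (by simp [hpi]), one_mul]
  congr 1
  ring

/-- integrals of functions against the Gaussian measure on `ℂ` -/
lemma integral_stdGaussian_complex {E : Type*} [NormedAddCommGroup E] [NormedSpace ℝ E]
    (f : ℂ → E) : ∫ z, f z ∂(stdGaussian ℂ) =
      ∫ z : ℂ, ((2 * Real.pi)⁻¹ * Real.exp (-(1 / 2) * ‖z‖ ^ 2)) • f z := by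
  rw [stdGaussian_complex, integral_withDensity_eq_integral_toReal_smul
    (by fun_prop) (Filter.Eventually.of_forall fun _ => ENNReal.ofReal_lt_top)]
  apply integral_congr_ae
  filter_upwards with z
  rw [ENNReal.toReal_ofReal (by positivity)]

/-- absolute moments of the Gaussian measure on `ℂ` -/
lemma integral_norm_rpow_stdGaussian_complex (p : ℝ) (hp : -2 < p) :
    ∫ z : ℂ, ‖z‖ ^ p ∂(stdGaussian ℂ) = 2 ^ (p / 2) * Real.Gamma (1 + p / 2) := by
  rw [integral_stdGaussian_complex]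
  have h := Complex.integral_rpow_mul_exp_neg_mul_rpow (p := 2) (q := p) (b := 1 / 2)
    (by norm_num) hp (by norm_num)
  have h1 : ∀ z : ℂ, ((2 * Real.pi)⁻¹ * Real.exp (-(1 / 2) * ‖z‖ ^ 2)) • (‖z‖ ^ p) =
      (2 * Real.pi)⁻¹ * (‖z‖ ^ p * Real.exp (-(1 / 2) * ‖z‖ ^ (2 : ℝ))) := by
    intro z
    rw [smul_eq_mul, Real.rpow_two]
    ring
  simp only [h1]
  rw [integral_const_mul, h]
  have h2 : ((1 / 2 : ℝ)) ^ (-(p + 2) / 2) = 2 * 2 ^ (p / 2) := by
    rw [one_div, Real.inv_rpow (by norm_num), ← Real.rpow_neg (by norm_num)]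
    rw [show -(-(p + 2) / 2) = 1 + p / 2 by ring, Real.rpow_add (by norm_num), Real.rpow_one]
  rw [h2, show (p + 2) / 2 = 1 + p / 2 by ring]
  have := Real.pi_pos
  field_simp

end Pool.Agent.H809R2.GI
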