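import Pool.Agent.H809R2.GI.Defs

set_option autoImplicit false

namespace Pool.Agent.H809R2.GI

open Matrix MeasureTheory
open scoped ComplexOrder

/-- a version of the failure of the inequality over an arbitrary finite index type -/
def Bad (𝕜 : Type) [RCLike 𝕜] (K : ℝ) (ι : Type) [Fintype ι] : Prop :=
  ∃ (S B : Matrix ι ι 𝕜) (M : ℝ), S.PosSemidef ∧ (∀ i, S i i = 1) ∧
    (∀ x : ι → 𝕜, (∀ i, ‖x i‖ = 1) → ‖(Bᴴ * Matrix.vecMulVec x (star x)).trace‖ ≤ M) ∧
    K * M < ‖(Bᴴ * S).trace‖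

lemma Bad.toFin {𝕜 : Type} [RCLike 𝕜] {K : ℝ} (hK : 0 ≤ K) {ι : Type} [Fintype ι]
    (h : Bad 𝕜 K ι) : ∃ (k : ℕ) (S B : Matrix (Fin k) (Fin k) 𝕜), IsCorrelation S ∧
      K * rankOneMax B < ‖(Bᴴ * S).trace‖ := by
  classical
  obtain ⟨S, B, M, hS, hS1, hM, hlt⟩ := h
  let e : ι ≃ Fin (Fintype.card ι) := Fintype.equivFin ι
  refine ⟨Fintype.card ι, S.submatrix e.symm e.symm, B.submatrix e.symm e.symm,
    ⟨hS.submatrix e.symm, fun i => hS1 _⟩, ?_⟩
  have htr : ∀ T : Matrix ι ι 𝕜, ((B.submatrix e.symm e.symm)ᴴ * T.submatrix e.symm e.symm).trace =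
      (Bᴴ * T).trace := by
    intro T
    rw [Matrix.conjTranspose_submatrix, Matrix.submatrix_mul_equiv]
    simp only [Matrix.trace, Matrix.diag_apply, Matrix.submatrix_apply]
    exact Equiv.sum_comp e.symm (fun i => (Bᴴ * T) i i)
  rw [htr]
  refine lt_of_le_of_lt (mul_le_mul_of_nonneg_left ?_ hK) hlt
  unfold rankOneMax
  apply csSup_le
  · exact ⟨_, fun _ => 1, fun _ => by simp, rfl⟩
  · rintro r ⟨x, hx, rfl⟩
    have := hM (x ∘ e) (fun i => hx _)
    rw [← htr] at this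
    have hx2 : (vecMulVec (x ∘ e) (star (x ∘ e))).submatrix e.symm e.symm =
        vecMulVec x (star x) := by
      ext i j
      simp [Matrix.vecMulVec_apply]
    rw [hx2] at this
    exact this

section finite

variable {𝕜 : Type} [RCLike 𝕜] {d : ℕ}

/-- Hilbert-Schmidt norm against trace -/
lemma hs_ge {ι : Type} [Fintype ι] (e : ι → EuclideanSpace 𝕜 (Fin d)) (a : ι → ℝ) :
    (∑ y, a y * ‖e y‖ ^ 2) ^ 2 ≤ d * ∑ y, ∑ z, a y * a z * ‖inner 𝕜 (e y) (e z)‖ ^ 2 := by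
  classical
  -- the matrix `S i j = ∑ a_y conj (e_y i) (e_y j)`
  let S : Fin d → Fin d → 𝕜 := fun i j => ∑ y, (a y : 𝕜) * (star (e y i) * e y j)
  have h1 : ∀ i, S i i = ((∑ y, a y * ‖e y i‖ ^ 2 : ℝ) : 𝕜) := by
    intro i
    simp only [S]
    push_cast
    apply Finset.sum_congr rfl
    intro y _
    congr 1
    exact RCLike.conj_mul (e y i)
  have h2 : (∑ y, a y * ‖e y‖ ^ 2) = ∑ i, ∑ y, a y * ‖e y i‖ ^ 2 := by
    rw [Finset.sum_comm]
    apply Finset.sum_congr rfl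
    intro y _
    rw [EuclideanSpace.norm_sq_eq, Finset.mul_sum]
  have h3 : ((∑ y, ∑ z, a y * a z * ‖inner 𝕜 (e y) (e z)‖ ^ 2 : ℝ) : 𝕜) =
      ∑ i, ∑ j, S i j * star (S i j) := by
    have h4 : ∀ y z, ((‖inner 𝕜 (e y) (e z)‖ ^ 2 : ℝ) : 𝕜) =
        ∑ i, ∑ j, (star (e y i) * e y j) * (star (star (e z i) * e z j)) := by
      intro y z
      have h5 : ((‖inner 𝕜 (e y) (e z)‖ ^ 2 : ℝ) : 𝕜) =
          inner 𝕜 (e y) (e z) * star (inner 𝕜 (e y) (e z)) := by
        push_cast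
        exact (RCLike.mul_conj _).symm
      rw [h5, PiLp.inner_apply]
      simp only [RCLike.inner_apply]
      rw [star_sum, Finset.sum_mul_sum]
      apply Finset.sum_congr rfl
      intro i _
      apply Finset.sum_congr rfl
      intro j _
      simp only [RCLike.star_def, map_mul, RCLike.conj_conj]
      ring
    push_cast
    simp only [S]
    have h6 : ∀ y z, (a y : 𝕜) * (a z : 𝕜) * ((‖inner 𝕜 (e y) (e z)‖ : ℝ) : 𝕜) ^ 2 =
        ∑ i, ∑ j, ((a y : 𝕜) * (star (e y i) * e y j)) *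
          (star ((a z : 𝕜) * (star (e z i) * e z j))) := by
      intro y z
      have h7 := h4 y z
      push_cast at h7
      rw [h7, Finset.mul_sum]
      apply Finset.sum_congr rfl
      intro i _
      rw [Finset.mul_sum]
      apply Finset.sum_congr rfl
      intro j _
      simp only [star_mul', RCLike.star_def, RCLike.conj_ofReal]
      ring
    simp only [h6]
    calc ∑ y, ∑ z, ∑ i, ∑ j, ((a y : 𝕜) * (star (e y i) * e y j)) *
          (star ((a z : 𝕜) * (star (e z i) * e z j)))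
        = ∑ i, ∑ y, ∑ z, ∑ j, ((a y : 𝕜) * (star (e y i) * e y j)) *
          (star ((a z : 𝕜) * (star (e z i) * e z j))) := by
          rw [Finset.sum_comm]
          rw [Finset.sum_comm]
          conv_rhs => rw [Finset.sum_comm]
          apply Finset.sum_congr rfl
          intro y _
          rw [Finset.sum_comm]
      _ = ∑ i, ∑ j, ∑ y, ∑ z, ((a y : 𝕜) * (star (e y i) * e y j)) *
          (star ((a z : 𝕜) * (star (e z i) * e z j))) := by
          apply Finset.sum_congr rfl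
          intro i _
          rw [Finset.sum_comm]
          conv_lhs => rw [Finset.sum_comm]
          conv_rhs => rw [Finset.sum_comm]
          apply Finset.sum_congr rfl
          intro y _
          rw [Finset.sum_comm]
      _ = _ := by
          apply Finset.sum_congr rfl
          intro i _
          apply Finset.sum_congr rfl
          intro j _
          rw [star_sum, Finset.sum_mul_sum]
  have h8 : (∑ y, ∑ z, a y * a z * ‖inner 𝕜 (e y) (e z)‖ ^ 2) = ∑ i, ∑ j, ‖S i j‖ ^ 2 := by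
    have h9 : ((∑ y, ∑ z, a y * a z * ‖inner 𝕜 (e y) (e z)‖ ^ 2 : ℝ) : 𝕜) =
        ((∑ i, ∑ j, ‖S i j‖ ^ 2 : ℝ) : 𝕜) := by
      rw [h3]
      push_cast
      apply Finset.sum_congr rfl
      intro i _
      apply Finset.sum_congr rfl
      intro j _
      exact RCLike.mul_conj _
    exact_mod_cast h9
  have h10 : ∑ i, (∑ y, a y * ‖e y i‖ ^ 2) ^ 2 ≤ ∑ i, ∑ j, ‖S i j‖ ^ 2 := by
    apply Finset.sum_le_sum
    intro i _
    have h11 : ‖S i i‖ ^ 2 ≤ ∑ j, ‖S i j‖ ^ 2 :=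
      Finset.single_le_sum (f := fun j => ‖S i j‖ ^ 2) (fun j _ => sq_nonneg _) (Finset.mem_univ i)
    rw [h1, RCLike.norm_ofReal, sq_abs] at h11
    exact h11
  rw [h2, h8]
  calc (∑ i, ∑ y, a y * ‖e y i‖ ^ 2) ^ 2
      ≤ (Finset.univ : Finset (Fin d)).card * ∑ i, (∑ y, a y * ‖e y i‖ ^ 2) ^ 2 :=
        sq_sum_le_card_mul_sum_sq
    _ = d * ∑ i, (∑ y, a y * ‖e y i‖ ^ 2) ^ 2 := by simp
    _ ≤ _ := by gcongr

/-- a unit vector in the direction of `y` -/
noncomputable def dir (e0 y : EuclideanSpace 𝕜 (Fin d)) : EuclideanSpace 𝕜 (Fin d) :=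
  if y = 0 then e0 else ((‖y‖⁻¹ : ℝ) : 𝕜) • y

lemma norm_dir {e0 : EuclideanSpace 𝕜 (Fin d)} (h : ‖e0‖ = 1) (y : EuclideanSpace 𝕜 (Fin d)) :
    ‖dir e0 y‖ = 1 := by
  unfold dir
  split_ifs with hy
  · exact h
  · rw [norm_smul, RCLike.norm_ofReal, abs_of_nonneg (by positivity),
      inv_mul_cancel₀ (norm_ne_zero_iff.mpr hy)]

lemma smul_dir (e0 y : EuclideanSpace 𝕜 (Fin d)) : ((‖y‖ : ℝ) : 𝕜) • dir e0 y = y := by
  unfold dir
  split_ifs with hy
  · simp [hy]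
  · rw [smul_smul, ← RCLike.ofReal_mul, mul_inv_cancel₀ (norm_ne_zero_iff.mpr hy)]
    simp

lemma bad_of_finite {ι : Type} [Fintype ι] (hd : 0 < d) (y : ι → EuclideanSpace 𝕜 (Fin d))
    (w : ι → ℝ) (hw : ∀ i, 0 ≤ w i) (hw1 : ∑ i, w i = 1) (K m : ℝ) (hm0 : 0 ≤ m)
    (hm : ∀ v : EuclideanSpace 𝕜 (Fin d), ‖v‖ = 1 → ∑ i, w i * ‖inner 𝕜 v (y i)‖ ≤ m)
    (hlt : K * (m ^ 2 / 2) < (∑ i, w i * ‖y i‖) ^ 2 / d - m ^ 2 / 2) : Bad 𝕜 K ι := by
  classical
  let e0 : EuclideanSpace 𝕜 (Fin d) := EuclideanSpace.single ⟨0, hd⟩ 1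
  have he0 : ‖e0‖ = 1 := by simp [e0]
  let e : ι → EuclideanSpace 𝕜 (Fin d) := fun i => dir e0 (y i)
  have he : ∀ i, ‖e i‖ = 1 := fun i => norm_dir he0 _
  have hye : ∀ i, ((‖y i‖ : ℝ) : 𝕜) • e i = y i := fun i => smul_dir _ _
  let B : Matrix ι ι 𝕜 := Matrix.of fun i j =>
    ((w i * w j : ℝ) : 𝕜) * inner 𝕜 (y i) (y j) - if i = j then ((m ^ 2 / 2 * w i : ℝ) : 𝕜) else 0
  have htr : ∀ T : Matrix ι ι 𝕜, (Bᴴ * T).trace =
      (∑ i, ∑ j, ((w i * w j : ℝ) : 𝕜) * inner 𝕜 (y j) (y i) * T i j) -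
        ∑ i, ((m ^ 2 / 2 * w i : ℝ) : 𝕜) * T i i := by
    intro T
    simp only [Matrix.trace, Matrix.diag_apply, Matrix.mul_apply, Matrix.conjTranspose_apply, B,
      Matrix.of_apply]
    rw [Finset.sum_comm]
    rw [← Finset.sum_sub_distrib]
    apply Finset.sum_congr rfl
    intro i _
    have h1 : ((m ^ 2 / 2 * w i : ℝ) : 𝕜) * T i i =
        ∑ j, (if i = j then ((m ^ 2 / 2 * w i : ℝ) : 𝕜) else 0) * T i j := by
      simp
    rw [h1, ← Finset.sum_sub_distrib]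
    apply Finset.sum_congr rfl
    intro j _
    rw [star_sub, star_mul']
    have h2 : star (inner 𝕜 (y i) (y j)) = inner 𝕜 (y j) (y i) := by
      simp
    have h3 : star (((w i * w j : ℝ) : 𝕜)) = ((w i * w j : ℝ) : 𝕜) := by simp
    have h4 : star (if i = j then ((m ^ 2 / 2 * w i : ℝ) : 𝕜) else 0) =
        if i = j then ((m ^ 2 / 2 * w i : ℝ) : 𝕜) else 0 := by
      split_ifs <;> simp
    rw [h2, h3, h4]
    ring
  refine ⟨Matrix.gram 𝕜 e, B, m ^ 2 / 2, Matrix.posSemidef_gram 𝕜 e, ?_, ?_, ?_⟩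
  · intro i
    rw [Matrix.gram_apply, inner_self_eq_norm_sq_to_K, he]
    simp
  · intro x hx
    rw [htr]
    have h1 : (∑ i, ∑ j, ((w i * w j : ℝ) : 𝕜) * inner 𝕜 (y j) (y i) *
        vecMulVec x (star x) i j) = ((‖∑ i, ((w i : ℝ) : 𝕜) • x i • y i‖ ^ 2 : ℝ) : 𝕜) := by
      push_cast
      rw [← inner_self_eq_norm_sq_to_K, inner_sum]
      apply Finset.sum_congr rfl
      intro i _
      rw [sum_inner]
      apply Finset.sum_congr rfl
      intro j _
      rw [inner_smul_left, inner_smul_left, inner_smul_right, inner_smul_right,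
        Matrix.vecMulVec_apply]
      simp only [Pi.star_apply, RCLike.star_def, RCLike.conj_ofReal]
      ring
    have h2 : ∑ i, ((m ^ 2 / 2 * w i : ℝ) : 𝕜) * vecMulVec x (star x) i i =
        ((m ^ 2 / 2 : ℝ) : 𝕜) := by
      have h3 : ∀ i, ((m ^ 2 / 2 * w i : ℝ) : 𝕜) * vecMulVec x (star x) i i =
          ((m ^ 2 / 2 * w i : ℝ) : 𝕜) := by
        intro i
        rw [Matrix.vecMulVec_apply, Pi.star_apply, RCLike.star_def, RCLike.mul_conj, hx]
        simp
      simp only [h3]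
      rw [← RCLike.ofReal_sum, ← Finset.mul_sum, hw1, mul_one]
    rw [h1, h2, ← RCLike.ofReal_sub, RCLike.norm_ofReal]
    -- the norm of the vector
    set V : EuclideanSpace 𝕜 (Fin d) := ∑ i, ((w i : ℝ) : 𝕜) • x i • y i with hV
    have h4 : ‖V‖ ≤ m := by
      by_cases hV0 : V = 0
      · rw [hV0, norm_zero]; exact hm0
      · have h5 : ‖inner 𝕜 (dir e0 V) V‖ = ‖V‖ := by
          conv_lhs => rw [← smul_dir e0 V]
          have h6 : dir e0 (((‖V‖ : ℝ) : 𝕜) • dir e0 V) = dir e0 V := by rw [smul_dir]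
          rw [h6, inner_smul_right, inner_self_eq_norm_sq_to_K, norm_dir he0]
          simp
        rw [← h5]
        refine le_trans ?_ (hm (dir e0 V) (norm_dir he0 _))
        rw [hV, inner_sum]
        refine le_trans (norm_sum_le _ _) ?_
        apply Finset.sum_le_sum
        intro i _
        rw [← hV, inner_smul_right, inner_smul_right, norm_mul, norm_mul, hx, RCLike.norm_ofReal,
          abs_of_nonneg (hw i), one_mul]
    rw [abs_le]
    constructor
    · nlinarith [sq_nonneg ‖V‖]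
    · nlinarith [norm_nonneg V]
  · rw [htr]
    have h1 : (∑ i, ∑ j, ((w i * w j : ℝ) : 𝕜) * inner 𝕜 (y j) (y i) * Matrix.gram 𝕜 e i j) =
        ((∑ i, ∑ j, (w i * ‖y i‖) * (w j * ‖y j‖) * ‖inner 𝕜 (e i) (e j)‖ ^ 2 : ℝ) : 𝕜) := by
      push_cast
      apply Finset.sum_congr rfl
      intro i _
      apply Finset.sum_congr rfl
      intro j _
      rw [Matrix.gram_apply]
      conv_lhs => rw [← hye i, ← hye j]
      have h6 : dir e0 (((‖y i‖ : ℝ) : 𝕜) • e i) = e i := by rw [hye]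
      rw [inner_smul_left, inner_smul_right]
      have h7 : inner 𝕜 (e j) (e i) * inner 𝕜 (e i) (e j) =
          (((‖inner 𝕜 (e i) (e j)‖ : ℝ) : 𝕜)) ^ 2 := by
        rw [← inner_conj_symm]
        exact RCLike.conj_mul _
      rw [← h7]
      simp only [RCLike.conj_ofReal]
      ring
    have h2 : ∑ i, ((m ^ 2 / 2 * w i : ℝ) : 𝕜) * Matrix.gram 𝕜 e i i =
        ((m ^ 2 / 2 : ℝ) : 𝕜) := by
      have h3 : ∀ i, ((m ^ 2 / 2 * w i : ℝ) : 𝕜) * Matrix.gram 𝕜 e i i =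
          ((m ^ 2 / 2 * w i : ℝ) : 𝕜) := by
        intro i
        rw [Matrix.gram_apply, inner_self_eq_norm_sq_to_K, he]
        simp
      simp only [h3]
      rw [← RCLike.ofReal_sum, ← Finset.mul_sum, hw1, mul_one]
    rw [h1, h2, ← RCLike.ofReal_sub, RCLike.norm_ofReal]
    refine lt_of_lt_of_le ?_ (le_abs_self _)
    refine lt_of_lt_of_le hlt ?_
    have h3 := hs_ge e (fun i => w i * ‖y i‖)
    have h4 : (∑ i, w i * ‖y i‖ * ‖e i‖ ^ 2) = ∑ i, w i * ‖y i‖ := by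
      apply Finset.sum_congr rfl
      intro i _
      rw [he]; ring
    rw [h4] at h3
    have hd' : (0 : ℝ) < d := by exact_mod_cast hd
    have h5 : (∑ i, w i * ‖y i‖) ^ 2 / d ≤
        ∑ i, ∑ j, (w i * ‖y i‖) * (w j * ‖y j‖) * ‖inner 𝕜 (e i) (e j)‖ ^ 2 := by
      rw [div_le_iff₀ hd']
      linarith
    linarith

end finite

end Pool.Agent.H809R2.GI
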