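import Pool.Agent.H809R2.GI.Lower

set_option autoImplicit false

namespace Pool.Agent.H809R2.GI

open Matrix MeasureTheory
open scoped ComplexOrder

variable {𝕜 : Type} [RCLike 𝕜] {d : ℕ}

theorem bad_of_rv {Ω : Type} [MeasurableSpace Ω] (P : Measure Ω) [IsProbabilityMeasure P]
    (hd : 0 < d) (X : Ω → EuclideanSpace 𝕜 (Fin d)) (hX : Integrable X P) (K m : ℝ) (hK : 0 ≤ K)
    (hm0 : 0 ≤ m)
    (hm : ∀ v : EuclideanSpace 𝕜 (Fin d), ‖v‖ = 1 → ∫ ω, ‖inner 𝕜 v (X ω)‖ ∂P ≤ m)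
    (hlt : K * (m ^ 2 / 2) < (∫ ω, ‖X ω‖ ∂P) ^ 2 / d - m ^ 2 / 2) :
    ∃ (k : ℕ) (S B : Matrix (Fin k) (Fin k) 𝕜), IsCorrelation S ∧
      K * rankOneMax B < ‖(Bᴴ * S).trace‖ := by
  classical
  have hd' : (0 : ℝ) < d := by exact_mod_cast hd
  set R : ℝ := ∫ ω, ‖X ω‖ ∂P with hR
  have hR0 : 0 ≤ R := integral_nonneg fun _ => norm_nonneg _
  have hRpos : 0 < R := by
    rcases hR0.eq_or_lt with h | h
    · rw [← h] at hlt
      have : 0 ≤ K * (m ^ 2 / 2) := by positivity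
      have h2 : 0 ≤ m ^ 2 / 2 := by positivity
      norm_num at hlt
      linarith
    · exact h
  -- choose `ε`
  have hcont : Filter.Tendsto (fun ε : ℝ => (R - ε) ^ 2 / d - (m + ε) ^ 2 / 2 -
      K * ((m + ε) ^ 2 / 2)) (nhdsWithin 0 (Set.Ioi 0))
      (nhds ((R - 0) ^ 2 / d - (m + 0) ^ 2 / 2 - K * ((m + 0) ^ 2 / 2))) := by
    apply Filter.Tendsto.mono_left _ nhdsWithin_le_nhds
    apply Continuous.tendsto
    fun_prop
  have hpos : 0 < (R - 0) ^ 2 / d - (m + 0) ^ 2 / 2 - K * ((m + 0) ^ 2 / 2) := by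
    simp only [sub_zero, add_zero]
    linarith
  have hev := hcont.eventually (lt_mem_nhds hpos)
  have hev2 : ∀ᶠ ε : ℝ in nhdsWithin 0 (Set.Ioi 0), ε < R :=
    Filter.Eventually.filter_mono nhdsWithin_le_nhds (gt_mem_nhds hRpos)
  obtain ⟨ε, ⟨hε1, hε2⟩, hε0⟩ := ((hev.and hev2).and self_mem_nhdsWithin).exists
  replace hε0 : 0 < ε := hε0
  -- simple function approximation
  obtain ⟨g, hg1, hg2⟩ := (memLp_one_iff_integrable.2 hX).exists_simpleFunc_eLpNorm_sub_lt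
    (by simp) (ε := ENNReal.ofReal ε) (by simpa using hε0)
  have hgi : Integrable g P := memLp_one_iff_integrable.1 hg2
  have hdiff : ∫ ω, ‖X ω - g ω‖ ∂P ≤ ε := by
    have h1 : eLpNorm (X - ⇑g) 1 P = ENNReal.ofReal (∫ ω, ‖X ω - g ω‖ ∂P) := by
      have h2 := ofReal_integral_norm_eq_lintegral_enorm (hX.sub hgi)
      rw [eLpNorm_one_eq_lintegral_enorm, ← h2]
      rfl
    rw [h1] at hg1
    exact ((ENNReal.ofReal_lt_ofReal_iff hε0).1 hg1).le
  -- the finite family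
  let ι : Type := g.range
  let _ : Fintype ι := Finset.Subtype.fintype g.range
  let y : ι → EuclideanSpace 𝕜 (Fin d) := fun i => i.1
  let w : ι → ℝ := fun i => P.real (g ⁻¹' {i.1})
  have hw : ∀ i, 0 ≤ w i := fun i => measureReal_nonneg
  have hsum : ∀ F : EuclideanSpace 𝕜 (Fin d) → ℝ, F 0 = 0 →
      ∑ i, w i * F (y i) = ∫ ω, F (g ω) ∂P := by
    intro F hF
    have h1 := g.map_integral F hgi hF
    rw [SimpleFunc.integral_eq_integral] at h1
    · simp only [SimpleFunc.coe_map, Function.comp_apply, smul_eq_mul] at h1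
      rw [h1]
      exact Finset.sum_coe_sort g.range (fun x => P.real (g ⁻¹' {x}) * F x)
    · exact SimpleFunc.integrable_of_isFiniteMeasure _
  have hw1 : ∑ i, w i = 1 := by
    have h1 := g.sum_range_measure_preimage_singleton P
    have h2 : ∑ i, w i = (∑ y ∈ g.range, P (g ⁻¹' {y})).toReal := by
      rw [ENNReal.toReal_sum (fun _ _ => measure_ne_top _ _)]
      exact Finset.sum_coe_sort g.range (fun x => P.real (g ⁻¹' {x}))
    rw [h2, h1]
    simp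
  have hnorm : ∑ i, w i * ‖y i‖ = ∫ ω, ‖g ω‖ ∂P := hsum (fun x => ‖x‖) (by simp)
  refine Bad.toFin hK (ι := ι) (bad_of_finite hd y w hw hw1 K (m + ε) (by positivity) ?_ ?_)
  · intro v hv
    rw [hsum (fun x => ‖inner 𝕜 v x‖) (by simp)]
    have h1 : ∀ ω, ‖inner 𝕜 v (g ω)‖ ≤ ‖inner 𝕜 v (X ω)‖ + ‖X ω - g ω‖ := by
      intro ω
      have h2 : inner 𝕜 v (g ω) = inner 𝕜 v (X ω) - inner 𝕜 v (X ω - g ω) := by
        rw [inner_sub_right]; ring
      rw [h2]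
      refine (norm_sub_le _ _).trans ?_
      gcongr
      refine (norm_inner_le_norm _ _).trans ?_
      rw [hv, one_mul]
    have hi1 : Integrable (fun ω => ‖inner 𝕜 v (X ω)‖) P := (hX.const_inner v).norm
    have hi2 : Integrable (fun ω => ‖X ω - g ω‖) P := (hX.sub hgi).norm
    calc ∫ ω, ‖inner 𝕜 v (g ω)‖ ∂P ≤ ∫ ω, (‖inner 𝕜 v (X ω)‖ + ‖X ω - g ω‖) ∂P :=
          integral_mono (hgi.const_inner v).norm (hi1.add hi2) h1
      _ = ∫ ω, ‖inner 𝕜 v (X ω)‖ ∂P + ∫ ω, ‖X ω - g ω‖ ∂P := integral_add hi1 hi2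
      _ ≤ m + ε := add_le_add (hm v hv) hdiff
  · rw [hnorm]
    have h1 : R - ε ≤ ∫ ω, ‖g ω‖ ∂P := by
      have h2 : R ≤ ∫ ω, (‖g ω‖ + ‖X ω - g ω‖) ∂P := by
        apply integral_mono hX.norm (hgi.norm.add (hX.sub hgi).norm)
        intro ω
        have : X ω = g ω + (X ω - g ω) := by abel
        calc ‖X ω‖ = ‖g ω + (X ω - g ω)‖ := by rw [← this]
          _ ≤ _ := norm_add_le _ _
      have hi2 : Integrable (fun ω => ‖X ω - g ω‖) P := (hX.sub hgi).norm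
      rw [integral_add hgi.norm hi2] at h2
      linarith
    have h3 : (R - ε) ^ 2 / d ≤ (∫ ω, ‖g ω‖ ∂P) ^ 2 / d := by
      have : 0 ≤ R - ε := by linarith
      gcongr
    linarith

end Pool.Agent.H809R2.GI
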