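import Pool.Agent.H809R2.GI.Lower2
import Pool.Agent.H809R2.GI.Gauss2

set_option autoImplicit false

namespace Pool.Agent.H809R2.GI

open MeasureTheory ProbabilityTheory Module
open scoped RealInnerProductSpace

/-- the variance of the square of a standard Gaussian variable -/
noncomputable def VV : ℝ := Var[fun x : ℝ => x ^ 2; gaussianReal 0 1]

lemma VV_nonneg : 0 ≤ VV := variance_nonneg _ _

section

variable {F : Type*} [NormedAddCommGroup F] [InnerProductSpace ℝ F] [FiniteDimensional ℝ F]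
  [MeasurableSpace F] [BorelSpace F]

lemma memLp_norm_stdGaussian (p : ENNReal) (hp : p ≠ ⊤) : MemLp (fun x : F => ‖x‖) p (stdGaussian F) :=
  (IsGaussian.memLp_id (stdGaussian F) p hp).norm

lemma memLp_sq_gaussianReal : MemLp (fun x : ℝ => x ^ 2) 2 (gaussianReal 0 1) := by
  have h : MemLp (fun x : ℝ => x) 4 (gaussianReal 0 1) := memLp_id_gaussianReal' 4 (by norm_num)
  have h1 : MemLp (fun x : ℝ => x * x) 2 (gaussianReal 0 1) := by
    have : ENNReal.HolderTriple 4 4 2 := ⟨by
      have : (4 : ENNReal) = 2 * 2 := by norm_num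
      rw [this, ENNReal.mul_inv (by simp) (by simp), ← two_mul, ← mul_assoc,
        ENNReal.mul_inv_cancel (by simp) (by simp), one_mul]⟩
    exact h.mul h
  simpa [pow_two] using h1

omit [MeasurableSpace F] [BorelSpace F] in
lemma norm_sum_basis (x : Fin (finrank ℝ F) → ℝ) :
    ‖∑ i, x i • stdOrthonormalBasis ℝ F i‖ ^ 2 = ∑ i, x i ^ 2 := by
  rw [← real_inner_self_eq_norm_sq, (stdOrthonormalBasis ℝ F).orthonormal.inner_sum]
  simp [pow_two]

lemma integral_sq_gaussianReal : ∫ x : ℝ, x ^ 2 ∂(gaussianReal 0 1) = 1 := by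
  have h := variance_of_integral_eq_zero (μ := gaussianReal 0 1) (X := fun x : ℝ => x)
    (by fun_prop) (by simp)
  rw [← h]
  simp

lemma integral_norm_sq_stdGaussian :
    ∫ x : F, ‖x‖ ^ 2 ∂(stdGaussian F) = finrank ℝ F := by
  have h := stdGaussian_eq_map_pi_orthonormalBasis (stdOrthonormalBasis ℝ F)
  rw [h, integral_map (Measurable.aemeasurable (by fun_prop)) (by fun_prop)]
  simp only [norm_sum_basis]
  rw [integral_finsetSum]
  · have h2 : ∀ i : Fin (finrank ℝ F), ∫ x : Fin (finrank ℝ F) → ℝ, x i ^ 2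
        ∂(Measure.pi fun _ => gaussianReal 0 1) = 1 := by
      intro i
      rw [integral_comp_eval (μ := fun _ : Fin (finrank ℝ F) => gaussianReal 0 1)
        (f := fun x : ℝ => x ^ 2) (by fun_prop), integral_sq_gaussianReal]
    simp [h2]
  · intro i _
    exact integrable_comp_eval (μ := fun _ : Fin (finrank ℝ F) => gaussianReal 0 1)
        (f := fun x : ℝ => x ^ 2) (memLp_sq_gaussianReal.integrable (by norm_num))

lemma variance_norm_sq_stdGaussian :
    ∫ x : F, (‖x‖ ^ 2 - finrank ℝ F) ^ 2 ∂(stdGaussian F) = finrank ℝ F * VV := by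
  have h0 := variance_eq_integral (μ := stdGaussian F) (X := fun x : F => ‖x‖ ^ 2) (by fun_prop)
  rw [integral_norm_sq_stdGaussian] at h0
  rw [← h0]
  have h := stdGaussian_eq_map_pi_orthonormalBasis (stdOrthonormalBasis ℝ F)
  rw [h, variance_map (by fun_prop) (Measurable.aemeasurable (by fun_prop))]
  have h1 : ((fun x : F => ‖x‖ ^ 2) ∘ fun x : Fin (finrank ℝ F) → ℝ =>
      ∑ i, x i • stdOrthonormalBasis ℝ F i) =
      ∑ i : Fin (finrank ℝ F), fun x : Fin (finrank ℝ F) → ℝ => (fun t : ℝ => t ^ 2) (x i) := by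
    ext x
    simp only [Function.comp_apply, Finset.sum_apply]
    exact norm_sum_basis x
  rw [h1, variance_sum_pi (fun _ => memLp_sq_gaussianReal)]
  simp [VV]

lemma integral_norm_ge (hF : 0 < finrank ℝ F) :
    Real.sqrt (finrank ℝ F) * (1 - VV / (2 * finrank ℝ F)) ≤ ∫ x : F, ‖x‖ ∂(stdGaussian F) := by
  set D : ℝ := (finrank ℝ F : ℝ) with hD
  have hD0 : 0 < D := by rw [hD]; exact_mod_cast hF
  have hs : 0 < Real.sqrt D := Real.sqrt_pos.mpr hD0
  have hss : Real.sqrt D ^ 2 = D := Real.sq_sqrt hD0.le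
  -- pointwise inequality
  have hpt : ∀ x : F, Real.sqrt D * (1 + (‖x‖ ^ 2 - D) / (2 * D) -
      (‖x‖ ^ 2 - D) ^ 2 / (2 * D ^ 2)) ≤ ‖x‖ := by
    intro x
    set t : ℝ := ‖x‖ / Real.sqrt D with ht
    have ht0 : 0 ≤ t := by positivity
    have hx : ‖x‖ = Real.sqrt D * t := by rw [ht]; field_simp
    have h1 : (‖x‖ ^ 2 - D) / (2 * D) = (t ^ 2 - 1) / 2 := by
      rw [hx, mul_pow, hss]; field_simp
    have h2 : (‖x‖ ^ 2 - D) ^ 2 / (2 * D ^ 2) = (t ^ 2 - 1) ^ 2 / 2 := by
      rw [hx, mul_pow, hss]; field_simp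
    rw [h1, h2]
    rw [hx]
    apply mul_le_mul_of_nonneg_left _ hs.le
    nlinarith [mul_nonneg ht0 (mul_nonneg (sq_nonneg (t - 1)) (by linarith : 0 ≤ t + 2))]
  have hi1 : Integrable (fun x : F => ‖x‖) (stdGaussian F) :=
    (memLp_norm_stdGaussian 1 (by norm_num)).integrable le_rfl
  have hi2 : Integrable (fun x : F => ‖x‖ ^ 2) (stdGaussian F) :=
    (memLp_norm_stdGaussian 2 (by norm_num)).integrable_sq
  have hi4 : MemLp (fun x : F => ‖x‖ ^ 2) 2 (stdGaussian F) := by
    have h := memLp_norm_stdGaussian (F := F) 4 (by norm_num)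
    have : ENNReal.HolderTriple 4 4 2 := ⟨by
      have : (4 : ENNReal) = 2 * 2 := by norm_num
      rw [this, ENNReal.mul_inv (by simp) (by simp), ← two_mul, ← mul_assoc,
        ENNReal.mul_inv_cancel (by simp) (by simp), one_mul]⟩
    have h1 : MemLp (fun x : F => ‖x‖ * ‖x‖) 2 (stdGaussian F) := h.mul h
    simpa [pow_two] using h1
  have hi5 : Integrable (fun x : F => (‖x‖ ^ 2 - D) ^ 2) (stdGaussian F) :=
    (hi4.sub (memLp_const D)).integrable_sq
  have hint : Integrable (fun x : F => Real.sqrt D * (1 + (‖x‖ ^ 2 - D) / (2 * D) -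
      (‖x‖ ^ 2 - D) ^ 2 / (2 * D ^ 2))) (stdGaussian F) := by
    apply Integrable.const_mul
    apply Integrable.sub
    · apply Integrable.add (integrable_const _)
      exact (hi2.sub (integrable_const _)).div_const _
    · exact hi5.div_const _
  refine le_trans (le_of_eq ?_) (integral_mono hint hi1 hpt)
  rw [integral_const_mul, integral_sub, integral_add, integral_div, integral_div, integral_sub hi2
    (integrable_const _), integral_norm_sq_stdGaussian, variance_norm_sq_stdGaussian]
  · simp only [integral_const, probReal_univ, smul_eq_mul, one_mul]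
    rw [← hD]
    field_simp
    ring
  · exact integrable_const _
  · exact (hi2.sub (integrable_const _)).div_const _
  · apply Integrable.add (integrable_const _)
    exact (hi2.sub (integrable_const _)).div_const _
  · exact hi5.div_const _

end

end Pool.Agent.H809R2.GI
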