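import Mathlib

set_option autoImplicit false

namespace Pool.Agent.H809R2.GI

open MeasureTheory Complex Set
open scoped Topology

variable {Ω : Type*} [MeasurableSpace Ω]

/-- `G z = ∫ e^{z L} σ` -/
noncomputable def stripFn (μ : Measure Ω) (L : Ω → ℝ) (σ : Ω → ℂ) (z : ℂ) : ℂ :=
  ∫ ω, cexp (z * (L ω : ℂ)) * σ ω ∂μ

lemma norm_term (L : ℝ) (s : ℂ) (hs : ‖s‖ = 1) (z : ℂ) :
    ‖cexp (z * (L : ℂ)) * s‖ = Real.exp (z.re * L) := by
  rw [norm_mul, hs, mul_one, Complex.norm_exp]
  simp

lemma exp_bound (L t : ℝ) (h0 : 0 ≤ t) (h1 : t ≤ 1) : Real.exp (t * L) ≤ 1 + Real.exp L := by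
  rcases le_total 0 L with hL | hL
  · have : Real.exp (t * L) ≤ Real.exp L := Real.exp_le_exp.mpr (by nlinarith)
    linarith
  · have : Real.exp (t * L) ≤ 1 := by
      rw [← Real.exp_zero]
      exact Real.exp_le_exp.mpr (mul_nonpos_of_nonneg_of_nonpos h0 hL)
    linarith [Real.exp_pos L]

lemma exp_bound' (L t δ : ℝ) (hδ : 0 < δ) (h0 : δ ≤ t) (h1 : t ≤ 1 - δ) :
    |L| * Real.exp (t * L) ≤ δ⁻¹ * (1 + Real.exp L) := by
  have h2 : |L| ≤ δ⁻¹ * Real.exp (δ * |L|) := by
    have := Real.add_one_le_exp (δ * |L|)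
    rw [← div_eq_inv_mul, le_div_iff₀ hδ]
    linarith [mul_comm δ |L|]
  calc |L| * Real.exp (t * L) ≤ (δ⁻¹ * Real.exp (δ * |L|)) * Real.exp (t * L) := by gcongr
    _ = δ⁻¹ * Real.exp (δ * |L| + t * L) := by rw [mul_assoc, Real.exp_add]
    _ ≤ δ⁻¹ * (1 + Real.exp L) := by
      gcongr
      rcases le_total 0 L with hL | hL
      · rw [abs_of_nonneg hL, ← add_mul]
        exact exp_bound L (δ + t) (by linarith) (by linarith)
      · rw [abs_of_nonpos hL]
        have : δ * -L + t * L = (t - δ) * L := by ring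
        rw [this]
        exact exp_bound L (t - δ) (by linarith) (by linarith)

variable (μ : Measure Ω) [IsFiniteMeasure μ] (L : Ω → ℝ) (σ : Ω → ℂ) (hL : Measurable L)
  (hσ : Measurable σ) (hσ1 : ∀ ω, ‖σ ω‖ = 1) (hint : Integrable (fun ω => Real.exp (L ω)) μ)

include hL hσ in
lemma meas_term (z : ℂ) : Measurable (fun ω => cexp (z * (L ω : ℂ)) * σ ω) := by
  fun_prop

include hL hσ hσ1 hint in
lemma integrable_term (z : ℂ) (h0 : 0 ≤ z.re) (h1 : z.re ≤ 1) :
    Integrable (fun ω => cexp (z * (L ω : ℂ)) * σ ω) μ := by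
  refine Integrable.mono' ((integrable_const 1).add hint)
    (meas_term L σ hL hσ z).aestronglyMeasurable (Filter.Eventually.of_forall fun ω => ?_)
  rw [norm_term _ _ (hσ1 ω)]
  exact exp_bound _ _ h0 h1

include hL hσ hσ1 hint in
lemma stripFn_continuousOn : ContinuousOn (stripFn μ L σ) (HadamardThreeLines.verticalClosedStrip 0 1) := by
  unfold stripFn
  refine continuousOn_of_dominated (bound := fun ω => 1 + Real.exp (L ω)) ?_ ?_ ?_ ?_
  · intro z _
    exact (meas_term L σ hL hσ z).aestronglyMeasurable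
  · intro z hz
    refine Filter.Eventually.of_forall fun ω => ?_
    rw [norm_term _ _ (hσ1 ω)]
    exact exp_bound _ _ hz.1 hz.2
  · exact (integrable_const 1).add hint
  · refine Filter.Eventually.of_forall fun ω => ?_
    apply Continuous.continuousOn
    fun_prop

include hL hσ hσ1 hint in
lemma stripFn_differentiableAt (z : ℂ) (h0 : 0 < z.re) (h1 : z.re < 1) :
    DifferentiableAt ℂ (stripFn μ L σ) z := by
  unfold stripFn
  set δ : ℝ := min (z.re / 2) ((1 - z.re) / 2) with hδ
  have hδ0 : 0 < δ := by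
    rw [hδ]; apply lt_min <;> linarith
  have hδ1 : δ ≤ z.re / 2 := min_le_left _ _
  have hδ2 : δ ≤ (1 - z.re) / 2 := min_le_right _ _
  have h := hasDerivAt_integral_of_dominated_loc_of_deriv_le (μ := μ)
    (F := fun z ω => cexp (z * (L ω : ℂ)) * σ ω) (F' := fun z ω => (L ω : ℂ) *
      (cexp (z * (L ω : ℂ)) * σ ω)) (x₀ := z) (bound := fun ω => δ⁻¹ * (1 + Real.exp (L ω)))
    (s := Metric.ball z δ) (Metric.ball_mem_nhds z hδ0) ?_ ?_ ?_ ?_ ?_ ?_
  · exact h.2.differentiableAt
  · exact Filter.Eventually.of_forall fun w => (meas_term L σ hL hσ w).aestronglyMeasurable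
  · exact integrable_term μ L σ hL hσ hσ1 hint z h0.le h1.le
  · exact ((Complex.measurable_ofReal.comp hL).mul (meas_term L σ hL hσ z)).aestronglyMeasurable
  · refine Filter.Eventually.of_forall fun ω w hw => ?_
    rw [norm_mul, norm_term _ _ (hσ1 ω), Complex.norm_real, Real.norm_eq_abs]
    have hre : |w.re - z.re| < δ := by
      have h2 : |(w - z).re| ≤ ‖w - z‖ := Complex.abs_re_le_norm _
      rw [Metric.mem_ball, dist_eq_norm] at hw
      rw [Complex.sub_re] at h2
      linarith
    have h3 := abs_lt.mp hre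
    exact exp_bound' _ _ δ hδ0 (by linarith) (by linarith)
  · exact ((integrable_const 1).add hint).const_mul _
  · refine Filter.Eventually.of_forall fun ω w _ => ?_
    have h2 : HasDerivAt (fun z : ℂ => z * (L ω : ℂ)) (L ω : ℂ) w := by
      simpa using (hasDerivAt_id w).mul_const (L ω : ℂ)
    have h3 := (h2.cexp).mul_const (σ ω)
    exact h3.congr_deriv (by ring)

include hL hσ hσ1 hint in
lemma stripFn_diffContOnCl :
    DiffContOnCl ℂ (stripFn μ L σ) (HadamardThreeLines.verticalStrip 0 1) := by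
  constructor
  · intro z hz
    exact (stripFn_differentiableAt μ L σ hL hσ hσ1 hint z hz.1 hz.2).differentiableWithinAt
  · have : closure (HadamardThreeLines.verticalStrip 0 1) ⊆
        HadamardThreeLines.verticalClosedStrip 0 1 := by
      apply closure_minimal
      · intro z hz
        exact ⟨hz.1.le, hz.2.le⟩
      · exact isClosed_Icc.preimage Complex.continuous_re
    exact (stripFn_continuousOn μ L σ hL hσ hσ1 hint).mono this

include hL hσ hσ1 hint in
lemma stripFn_bound (z : ℂ) (hz : z ∈ HadamardThreeLines.verticalClosedStrip 0 1) :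
    ‖stripFn μ L σ z‖ ≤ ∫ ω, (1 + Real.exp (L ω)) ∂μ := by
  unfold stripFn
  refine (norm_integral_le_integral_norm _).trans ?_
  apply integral_mono
  · exact (integrable_term μ L σ hL hσ hσ1 hint z hz.1 hz.2).norm
  · exact (integrable_const 1).add hint
  · intro ω
    simp only
    rw [norm_term _ _ (hσ1 ω)]
    exact exp_bound _ _ hz.1 hz.2

end Pool.Agent.H809R2.GI
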